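import Pool.Agent.Q47.Cube.Final
import Pool.Agent.Q139.Net.EdgeNet

/-!
Oblique foldings of polyominoes onto cubes: certificates and basic maps.

The cube has edge `√(a^2+b^2)`; the squares of the developed surface form the tilted grid spanned
by `(a, b)` and `(-b, a)`.
-/

open Set Metric Filter Topology

namespace Q139.Obl

open Q139.Net (Cell E2 E3 T3 Fr aff addT co_addT units dotT okFrame okFrame_co okFrame_dot aff_dist
  aff_apply continuous_aff cons cons_spec aff_congr keyOpen surfKeys mem_surfKeys keyOpen_co negT)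

/-- a unit cell of the plane together with the placement of one of the tilted squares which meet
it -/
structure Pc where
  d : Cell
  f : Fr
  deriving DecidableEq

def kk (a b : ℤ) : ℤ := a * a + b * b
def XX (a b : ℤ) (c : Cell) : ℤ := a * c.1 + b * c.2
def YY (a b : ℤ) (c : Cell) : ℤ := -b * c.1 + a * c.2

def smulT (n : ℤ) (t : T3) : T3 := (n * t.1, n * t.2.1, n * t.2.2)

theorem co_smulT (n : ℤ) (t : T3) (i : Fin 3) : (smulT n t).co i = n * t.co i := by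
  fin_cases i <;> rfl

def crossT (u v : T3) : T3 :=
  (u.2.1 * v.2.2 - u.2.2 * v.2.1, u.2.2 * v.1 - u.1 * v.2.2, u.1 * v.2.1 - u.2.1 * v.1)

/-- outer normal -/
def nrm (f : Fr) : T3 := addT (keyOpen f) (-1, -1, -1)

/-- `k` times the image of a lattice point -/
def val (a b : ℤ) (f : Fr) (c : Cell) : T3 :=
  addT (addT (smulT (kk a b) f.o) (smulT (XX a b c - kk a b * f.c.1) f.u))
    (smulT (YY a b c - kk a b * f.c.2) f.v)

/-- `2k` times the image of the centre of a cell -/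
def ctr2 (a b : ℤ) (c : Cell) (f : Fr) : T3 :=
  addT (addT (smulT (2 * kk a b) f.o) (smulT (2 * XX a b c + (a + b) - 2 * kk a b * f.c.1) f.u))
    (smulT (2 * YY a b c + (a - b) - 2 * kk a b * f.c.2) f.v)

def ptIn (a b : ℤ) (f : Fr) (c : Cell) : Prop :=
  (kk a b * f.c.1 ≤ XX a b c ∧ XX a b c ≤ kk a b * (f.c.1 + 1)) ∧
  (kk a b * f.c.2 ≤ YY a b c ∧ YY a b c ≤ kk a b * (f.c.2 + 1))

/-- compatibility of frames, without folding back -/
def cons2 (f g : Fr) : Bool :=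
  cons f g && (!(g.c == (f.c.1 + 1, f.c.2)) || !(keyOpen g == keyOpen f)) &&
    (!(g.c == (f.c.1, f.c.2 + 1)) || !(keyOpen g == keyOpen f))

/-- the tilted coordinates -/
noncomputable def TT (a b : ℤ) (x : ℂ) : E2 :=
  WithLp.toLp 2 ![(a * x.re + b * x.im) / (kk a b : ℝ), (-b * x.re + a * x.im) / (kk a b : ℝ)]

/-- the inverse of the tilted coordinates -/
noncomputable def TI (a b : ℤ) (p : E2) : ℂ := ⟨a * p 0 - b * p 1, b * p 0 + a * p 1⟩

/-- the extended placement map of a frame -/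
noncomputable def AA (a b : ℤ) (f : Fr) (x : ℂ) : E3 := √(kk a b : ℝ) • aff f (TT a b x)

variable {a b : ℤ}

theorem TT_zero (x : ℂ) : TT a b x 0 = (a * x.re + b * x.im) / (kk a b : ℝ) := rfl
theorem TT_one (x : ℂ) : TT a b x 1 = (-b * x.re + a * x.im) / (kk a b : ℝ) := rfl

theorem kk_cast : (kk a b : ℝ) = a * a + b * b := by unfold kk; push_cast; ring

theorem TI_TT (hk : 0 < kk a b) (x : ℂ) : TI a b (TT a b x) = x := by
  have hk' : (kk a b : ℝ) ≠ 0 := by exact_mod_cast hk.ne'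
  have e := @kk_cast a b
  apply Complex.ext
  · show (a : ℝ) * TT a b x 0 - b * TT a b x 1 = x.re
    rw [TT_zero, TT_one]
    field_simp
    rw [e]; ring
  · show (b : ℝ) * TT a b x 0 + a * TT a b x 1 = x.im
    rw [TT_zero, TT_one]
    field_simp
    rw [e]; ring

theorem TT_TI (hk : 0 < kk a b) (p : E2) : TT a b (TI a b p) = p := by
  have hk' : (kk a b : ℝ) ≠ 0 := by exact_mod_cast hk.ne'
  have e := @kk_cast a b
  ext i
  fin_cases i
  · show (a * ((a : ℝ) * p 0 - b * p 1) + b * ((b : ℝ) * p 0 + a * p 1)) / (kk a b : ℝ) = p 0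
    field_simp
    rw [e]; ring
  · show (-b * ((a : ℝ) * p 0 - b * p 1) + a * ((b : ℝ) * p 0 + a * p 1)) / (kk a b : ℝ) = p 1
    field_simp
    rw [e]; ring

theorem continuous_TT : Continuous (TT a b) := by
  refine (PiLp.continuous_toLp 2 _).comp (continuous_pi fun i => ?_)
  fin_cases i
  · show Continuous fun x : ℂ => (a * x.re + b * x.im) / (kk a b : ℝ)
    fun_prop
  · show Continuous fun x : ℂ => (-b * x.re + a * x.im) / (kk a b : ℝ)
    fun_prop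

theorem AA_apply (f : Fr) (x : ℂ) (i : Fin 3) :
    AA a b f x i = √(kk a b : ℝ) * ((f.o.co i : ℝ) + (TT a b x 0 - f.c.1) * f.u.co i +
      (TT a b x 1 - f.c.2) * f.v.co i) := rfl

theorem continuous_AA (f : Fr) : Continuous (AA a b f) := by
  unfold AA
  exact ((continuous_aff f).comp continuous_TT).const_smul (√(kk a b : ℝ))

theorem dist_TT (hk : 0 < kk a b) (x y : ℂ) :
    √(kk a b : ℝ) * dist (TT a b x) (TT a b y) = dist x y := by
  have hk' : (0 : ℝ) < (kk a b : ℝ) := by exact_mod_cast hk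
  have hk'' := hk'.ne'
  have e := @kk_cast a b
  rw [EuclideanSpace.dist_eq, Complex.dist_eq_re_im, ← Real.sqrt_mul hk'.le]
  congr 1
  simp only [Fin.sum_univ_two, Real.dist_eq, sq_abs]
  rw [TT_zero, TT_one, TT_zero, TT_one]
  field_simp
  rw [e]; ring

theorem dist_AA (hk : 0 < kk a b) {f : Fr} (hf : okFrame f = true) (x y : ℂ) :
    dist (AA a b f x) (AA a b f y) = dist x y := by
  rw [AA, AA, dist_smul₀, aff_dist hf, Real.norm_of_nonneg (Real.sqrt_nonneg _), dist_TT hk]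

/-- the pieces -/
def At (a b : ℤ) (P : Pc) (x : ℂ) : Prop :=
  x ∈ Q47.Cube.cell P.d ∧ TT a b x ∈ Q139.Net.sq P.f.c

theorem isClosed_sq (c : Cell) : IsClosed (Q139.Net.sq c) := (Q139.Net.isCompact_sq c).isClosed

theorem isClosed_At (P : Pc) : IsClosed {x | At a b P x} :=
  (Q47.Cube.isCompact_cell P.d).isClosed.inter ((isClosed_sq P.f.c).preimage continuous_TT)

def nearB (c d : Cell) : Bool :=
  (c.1 == d.1 && (c.2 == d.2 || c.2 == d.2 + 1 || d.2 == c.2 + 1)) ||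
  (c.2 == d.2 && (c.1 == d.1 + 1 || d.1 == c.1 + 1))

def cellsOf (L : List Pc) : Finset Cell := (L.map Pc.d).toFinset

theorem mem_cellsOf {L : List Pc} {c : Cell} : c ∈ cellsOf L ↔ ∃ P ∈ L, P.d = c := by
  simp [cellsOf]

def sep (a b : ℤ) (c : Cell) : Prop :=
  XX a b c + a + b ≤ 0 ∨ kk a b ≤ XX a b c ∨ YY a b c + a ≤ 0 ∨ kk a b ≤ YY a b c - b

/-- reference frames of the six faces -/
def refs : List Fr :=
  [⟨(0, 0), (1, 0, 0), (0, 1, 0), (0, 0, 1)⟩, ⟨(0, 0), (0, 0, 0), (0, 0, 1), (0, 1, 0)⟩,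
   ⟨(0, 0), (0, 1, 0), (0, 0, 1), (1, 0, 0)⟩, ⟨(0, 0), (0, 0, 0), (1, 0, 0), (0, 0, 1)⟩,
   ⟨(0, 0), (0, 0, 1), (1, 0, 0), (0, 1, 0)⟩, ⟨(0, 0), (0, 0, 0), (0, 1, 0), (1, 0, 0)⟩]

def vert (a b : ℤ) (x : Cell) : Prop := kk a b ∣ XX a b x ∧ kk a b ∣ YY a b x

/-- all conditions on a certificate -/
structure Good (a b : ℤ) (L : List Pc) : Prop where
  ha : 0 ≤ a
  hb : 0 ≤ b
  hk : 0 < kk a b
  ok : ∀ P ∈ L, okFrame P.f = true
  key : ∀ P ∈ L, keyOpen P.f ∈ surfKeys 1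
  ori : ∀ P ∈ L, crossT P.f.u P.f.v = nrm P.f
  cov : ∀ P ∈ L, ∀ x ∈ Q47.Cube.cell P.d, ∃ Q ∈ L, At a b Q x ∧ Q.d = P.d
  near : ∀ P ∈ L, ∀ Q ∈ L, nearB P.d Q.d = true → cons2 P.f Q.f = true
  val1 : ∀ P ∈ L, ∀ Q ∈ L, Q.d = (P.d.1 + 1, P.d.2 + 1) → ptIn a b P.f Q.d → ptIn a b Q.f Q.d →
    val a b P.f Q.d = val a b Q.f Q.d
  val2 : ∀ P ∈ L, ∀ Q ∈ L, Q.d = (P.d.1 + 1, P.d.2 - 1) → ptIn a b P.f (P.d.1 + 1, P.d.2) →
    ptIn a b Q.f (P.d.1 + 1, P.d.2) → val a b P.f (P.d.1 + 1, P.d.2) = val a b Q.f (P.d.1 + 1, P.d.2)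
  blk1 : ∀ P ∈ L, ∀ Q ∈ L, Q.d = (P.d.1 + 1, P.d.2 + 1) → (P.d.1 + 1, P.d.2) ∈ cellsOf L →
    (P.d.1, P.d.2 + 1) ∈ cellsOf L → cons2 P.f Q.f = true ∧ cons2 Q.f P.f = true ∧ ¬ vert a b Q.d
  blk2 : ∀ P ∈ L, ∀ Q ∈ L, Q.d = (P.d.1 + 1, P.d.2 - 1) → (P.d.1 + 1, P.d.2) ∈ cellsOf L →
    (P.d.1, P.d.2 - 1) ∈ cellsOf L → cons2 P.f Q.f = true ∧ cons2 Q.f P.f = true
  uniq : ∀ P ∈ L, ∀ Q ∈ L, keyOpen P.f = keyOpen Q.f → ctr2 a b P.d P.f = ctr2 a b Q.d Q.f → P = Q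
  surj : ∀ G ∈ refs, ∀ c : Cell, -b ≤ c.1 → c.1 < a → 0 ≤ c.2 → c.2 < a + b → ¬ sep a b c →
    ∃ P ∈ L, keyOpen P.f = keyOpen G ∧ ctr2 a b P.d P.f = ctr2 a b c G

theorem cons2_spec {f g : Fr} (h : cons2 f g = true) : cons f g = true ∧
    (g.c = (f.c.1 + 1, f.c.2) → keyOpen g ≠ keyOpen f) ∧
    (g.c = (f.c.1, f.c.2 + 1) → keyOpen g ≠ keyOpen f) := by
  simp only [cons2, Bool.and_eq_true, Bool.or_eq_true, Bool.not_eq_true', beq_eq_false_iff_ne] at h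
  tauto

/-! ### values at lattice points -/

theorem TT_lattice_in {f : Fr} {c : Cell} (hk : 0 < kk a b) {x : ℂ} (h1 : x.re = c.1)
    (h2 : x.im = c.2) (h : TT a b x ∈ Q139.Net.sq f.c) : ptIn a b f c := by
  have hk' : (0 : ℝ) < (kk a b : ℝ) := by exact_mod_cast hk
  obtain ⟨a1, a2, a3, a4⟩ := h
  rw [TT_zero, h1, h2, le_div_iff₀ hk'] at a1
  rw [TT_zero, h1, h2, div_le_iff₀ hk'] at a2
  rw [TT_one, h1, h2, le_div_iff₀ hk'] at a3
  rw [TT_one, h1, h2, div_le_iff₀ hk'] at a4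
  refine ⟨⟨?_, ?_⟩, ?_, ?_⟩
  · have : ((kk a b * f.c.1 : ℤ) : ℝ) ≤ ((XX a b c : ℤ) : ℝ) := by
      unfold XX; push_cast; linarith
    exact_mod_cast this
  · have : ((XX a b c : ℤ) : ℝ) ≤ ((kk a b * (f.c.1 + 1) : ℤ) : ℝ) := by
      unfold XX; push_cast; linarith
    exact_mod_cast this
  · have : ((kk a b * f.c.2 : ℤ) : ℝ) ≤ ((YY a b c : ℤ) : ℝ) := by
      unfold YY; push_cast; linarith
    exact_mod_cast this
  · have : ((YY a b c : ℤ) : ℝ) ≤ ((kk a b * (f.c.2 + 1) : ℤ) : ℝ) := by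
      unfold YY; push_cast; linarith
    exact_mod_cast this

theorem AA_lattice (hk : 0 < kk a b) {f : Fr} {c : Cell} {x : ℂ} (h1 : x.re = c.1)
    (h2 : x.im = c.2) (i : Fin 3) :
    AA a b f x i = √(kk a b : ℝ) / (kk a b : ℝ) * ((val a b f c).co i : ℤ) := by
  have hk' : (kk a b : ℝ) ≠ 0 := by exact_mod_cast hk.ne'
  rw [AA_apply, TT_zero, TT_one, h1, h2, val, co_addT, co_addT, co_smulT, co_smulT, co_smulT, XX, YY]
  push_cast
  field_simp

theorem AA_congr {f g : Fr} (h : cons2 f g = true) (h' : cons2 g f = true) {x : ℂ}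
    (hf : TT a b x ∈ Q139.Net.sq f.c) (hg : TT a b x ∈ Q139.Net.sq g.c) :
    AA a b f x = AA a b g x := by
  rw [AA, AA, aff_congr (cons2_spec h).1 (cons2_spec h').1 hf hg]

theorem near_cells {c d : Cell} {x : ℂ} (hc : x ∈ Q47.Cube.cell c) (hd : x ∈ Q47.Cube.cell d) :
    (d.1 = c.1 - 1 ∨ d.1 = c.1 ∨ d.1 = c.1 + 1) ∧ (d.2 = c.2 - 1 ∨ d.2 = c.2 ∨ d.2 = c.2 + 1) := by
  obtain ⟨c1, c2, c3, c4⟩ := hc
  obtain ⟨d1, d2, d3, d4⟩ := hd
  have e1 : (d.1 : ℝ) ≤ (c.1 + 1 : ℤ) := by push_cast; linarith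
  have e2 : (c.1 : ℝ) ≤ (d.1 + 1 : ℤ) := by push_cast; linarith
  have e3 : (d.2 : ℝ) ≤ (c.2 + 1 : ℤ) := by push_cast; linarith
  have e4 : (c.2 : ℝ) ≤ (d.2 + 1 : ℤ) := by push_cast; linarith
  rw [Int.cast_le] at e1 e2 e3 e4
  omega

theorem nearB_symm {c d : Cell} (h : nearB c d = true) : nearB d c = true := by
  simp only [nearB, Bool.or_eq_true, Bool.and_eq_true, beq_iff_eq] at h ⊢
  omega

/-- the relation of two cells with a common point -/
theorem cells_cases {c d : Cell} {x : ℂ} (hc : x ∈ Q47.Cube.cell c) (hd : x ∈ Q47.Cube.cell d) :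
    nearB c d = true ∨
    (d = (c.1 + 1, c.2 + 1) ∧ x.re = d.1 ∧ x.im = d.2) ∨
    (c = (d.1 + 1, d.2 + 1) ∧ x.re = c.1 ∧ x.im = c.2) ∨
    (d = (c.1 + 1, c.2 - 1) ∧ x.re = (c.1 : ℝ) + 1 ∧ x.im = c.2) ∨
    (c = (d.1 + 1, d.2 - 1) ∧ x.re = (d.1 : ℝ) + 1 ∧ x.im = d.2) := by
  obtain ⟨hx, hy⟩ := near_cells hc hd
  obtain ⟨c1, c2, c3, c4⟩ := hc
  obtain ⟨d1, d2, d3, d4⟩ := hd
  rcases hx with hx | hx | hx <;> rcases hy with hy | hy | hy
  · right; right; left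
    refine ⟨Prod.ext (by simp only; omega) (by simp only; omega), ?_, ?_⟩
    · rw [hx] at d2; push_cast at d2; linarith
    · rw [hy] at d4; push_cast at d4; linarith
  · left
    simp only [nearB, Bool.or_eq_true, Bool.and_eq_true, beq_iff_eq]; omega
  · right; right; right; right
    refine ⟨Prod.ext (by simp only; omega) (by simp only; omega), ?_, ?_⟩
    · rw [hx] at d2 ⊢; push_cast at d2 ⊢; linarith
    · rw [hy] at d3 ⊢; push_cast at d3 ⊢; linarith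
  · left
    simp only [nearB, Bool.or_eq_true, Bool.and_eq_true, beq_iff_eq]; omega
  · left
    simp only [nearB, Bool.or_eq_true, Bool.and_eq_true, beq_iff_eq]; omega
  · left
    simp only [nearB, Bool.or_eq_true, Bool.and_eq_true, beq_iff_eq]; omega
  · right; right; right; left
    refine ⟨Prod.ext (by simp only; omega) (by simp only; omega), ?_, ?_⟩
    · rw [hx] at d1; push_cast at d1; linarith
    · rw [hy] at d4; push_cast at d4; linarith
  · left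
    simp only [nearB, Bool.or_eq_true, Bool.and_eq_true, beq_iff_eq]; omega
  · right; left
    refine ⟨Prod.ext (by simp only; omega) (by simp only; omega), ?_, ?_⟩
    · rw [hx] at d1 ⊢; push_cast at d1 ⊢; linarith
    · rw [hy] at d3 ⊢; push_cast at d3 ⊢; linarith

theorem Good.eq_of_val {L : List Pc} (h : Good a b L) {f g : Fr} {c : Cell} {x : ℂ}
    (h1 : x.re = c.1) (h2 : x.im = c.2) (he : val a b f c = val a b g c) :
    AA a b f x = AA a b g x := by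
  ext i
  rw [AA_lattice h.hk h1 h2, AA_lattice h.hk h1 h2, he]

/-- the placement maps agree -/
theorem Good.agree {L : List Pc} (h : Good a b L) {P Q : Pc} (hP : P ∈ L) (hQ : Q ∈ L) {x : ℂ}
    (h1 : At a b P x) (h2 : At a b Q x) : AA a b P.f x = AA a b Q.f x := by
  rcases cells_cases h1.1 h2.1 with hc | ⟨hc, e1, e2⟩ | ⟨hc, e1, e2⟩ | ⟨hc, e1, e2⟩ | ⟨hc, e1, e2⟩
  · exact AA_congr (h.near P hP Q hQ hc) (h.near Q hQ P hP (nearB_symm hc)) h1.2 h2.2
  · exact h.eq_of_val e1 e2 (h.val1 P hP Q hQ hc (TT_lattice_in h.hk e1 e2 h1.2)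
      (TT_lattice_in h.hk e1 e2 h2.2))
  · exact (h.eq_of_val e1 e2 (h.val1 Q hQ P hP hc (TT_lattice_in h.hk e1 e2 h2.2)
      (TT_lattice_in h.hk e1 e2 h1.2))).symm
  · have e1' : x.re = (((P.d.1 + 1, P.d.2) : Cell).1 : ℝ) := by push_cast; exact e1
    have e2' : x.im = (((P.d.1 + 1, P.d.2) : Cell).2 : ℝ) := e2
    exact h.eq_of_val e1' e2' (h.val2 P hP Q hQ hc (TT_lattice_in h.hk e1' e2' h1.2)
      (TT_lattice_in h.hk e1' e2' h2.2))
  · have e1' : x.re = (((Q.d.1 + 1, Q.d.2) : Cell).1 : ℝ) := by push_cast; exact e1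
    have e2' : x.im = (((Q.d.1 + 1, Q.d.2) : Cell).2 : ℝ) := e2
    exact (h.eq_of_val e1' e2' (h.val2 Q hQ P hP hc (TT_lattice_in h.hk e1' e2' h2.2)
      (TT_lattice_in h.hk e1' e2' h1.2))).symm

end Q139.Obl
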