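import Pool.Agent.Q139.Obl.Iso

/-!
Boolean checks of certificates.
-/

open Set Metric Filter Topology

namespace Q139.Obl

open Q139.Net (Cell E2 E3 T3 Fr aff addT co_addT units dotT okFrame cons cons_spec keyOpen surfKeys
  conn)

variable {a b : ℤ} {L : List Pc}

def hasP (L : List Pc) (c w : Cell) : Bool := L.any fun P => P.d == c && P.f.c == w
def hasC (L : List Pc) (c : Cell) : Bool := L.any fun P => P.d == c

def inX (a b : ℤ) (c : Cell) (lo hi : ℤ) : Bool :=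
  decide (kk a b * lo ≤ XX a b c) && decide (XX a b c + a + b ≤ kk a b * hi)
def inY (a b : ℤ) (c : Cell) (lo hi : ℤ) : Bool :=
  decide (kk a b * lo ≤ YY a b c - b) && decide (YY a b c + a ≤ kk a b * hi)

def covB (a b : ℤ) (L : List Pc) (P : Pc) : Bool :=
  (inX a b P.d P.f.c.1 (P.f.c.1 + 1) && inY a b P.d P.f.c.2 (P.f.c.2 + 1)) ||
  (hasP L P.d (P.f.c.1 + 1, P.f.c.2) && inX a b P.d P.f.c.1 (P.f.c.1 + 2) &&
    inY a b P.d P.f.c.2 (P.f.c.2 + 1)) ||
  (hasP L P.d (P.f.c.1, P.f.c.2 + 1) && inX a b P.d P.f.c.1 (P.f.c.1 + 1) &&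
    inY a b P.d P.f.c.2 (P.f.c.2 + 2))

def ptInB (a b : ℤ) (f : Fr) (c : Cell) : Bool :=
  (decide (kk a b * f.c.1 ≤ XX a b c) && decide (XX a b c ≤ kk a b * (f.c.1 + 1))) &&
  (decide (kk a b * f.c.2 ≤ YY a b c) && decide (YY a b c ≤ kk a b * (f.c.2 + 1)))

theorem ptInB_iff {f : Fr} {c : Cell} : ptInB a b f c = true ↔ ptIn a b f c := by
  simp [ptInB, ptIn]

def vertB (a b : ℤ) (x : Cell) : Bool := XX a b x % kk a b == 0 && YY a b x % kk a b == 0

theorem vertB_iff {x : Cell} : vertB a b x = true ↔ vert a b x := by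
  simp only [vertB, vert, Bool.and_eq_true, beq_iff_eq]
  exact ⟨fun h => ⟨Int.dvd_of_emod_eq_zero h.1, Int.dvd_of_emod_eq_zero h.2⟩,
    fun h => ⟨Int.emod_eq_zero_of_dvd h.1, Int.emod_eq_zero_of_dvd h.2⟩⟩

def sepB (a b : ℤ) (c : Cell) : Bool :=
  decide (XX a b c + a + b ≤ 0) || decide (kk a b ≤ XX a b c) || decide (YY a b c + a ≤ 0) ||
    decide (kk a b ≤ YY a b c - b)

theorem sepB_iff {c : Cell} : sepB a b c = true ↔ sep a b c := by
  simp [sepB, sep, or_assoc]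

def diag1 (a b : ℤ) (L : List Pc) (P Q : Pc) : Bool :=
  (!(ptInB a b P.f Q.d && ptInB a b Q.f Q.d) || val a b P.f Q.d == val a b Q.f Q.d) &&
  (!(hasC L (P.d.1 + 1, P.d.2) && hasC L (P.d.1, P.d.2 + 1)) ||
    (cons2 P.f Q.f && cons2 Q.f P.f && !(vertB a b Q.d)))

def diag2 (a b : ℤ) (L : List Pc) (P Q : Pc) : Bool :=
  (!(ptInB a b P.f (P.d.1 + 1, P.d.2) && ptInB a b Q.f (P.d.1 + 1, P.d.2)) ||
    val a b P.f (P.d.1 + 1, P.d.2) == val a b Q.f (P.d.1 + 1, P.d.2)) &&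
  (!(hasC L (P.d.1 + 1, P.d.2) && hasC L (P.d.1, P.d.2 - 1)) ||
    (cons2 P.f Q.f && cons2 Q.f P.f))

def pairB (a b : ℤ) (L : List Pc) (P Q : Pc) : Bool :=
  (!(nearB P.d Q.d) || cons2 P.f Q.f) &&
  (!(Q.d == (P.d.1 + 1, P.d.2 + 1)) || diag1 a b L P Q) &&
  (!(Q.d == (P.d.1 + 1, P.d.2 - 1)) || diag2 a b L P Q)

def okB (P : Pc) : Bool :=
  okFrame P.f && (surfKeys 1).contains (keyOpen P.f) && crossT P.f.u P.f.v == nrm P.f

def ranges (lo : ℤ) (n : ℕ) : List ℤ := (List.range n).map fun i => lo + ((i : ℕ) : ℤ)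

theorem mem_ranges {lo x : ℤ} {n : ℕ} : x ∈ ranges lo n ↔ lo ≤ x ∧ x < lo + n := by
  simp only [ranges, List.mem_map, List.mem_range]
  constructor
  · rintro ⟨i, hi, rfl⟩; omega
  · rintro ⟨h1, h2⟩
    exact ⟨(x - lo).toNat, by omega, by omega⟩

def surjB (a b : ℤ) (L : List Pc) : Bool :=
  refs.all fun G => (ranges (-b) (a + b).toNat).all fun m => (ranges 0 (a + b).toNat).all fun n =>
    sepB a b (m, n) || L.any fun P => keyOpen P.f == keyOpen G && ctr2 a b P.d P.f == ctr2 a b (m, n) G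

/-- all checks -/
def goodB (a b : ℤ) (L : List Pc) : Bool :=
  decide (0 ≤ a) && decide (0 ≤ b) && decide (0 < kk a b) && L.all okB &&
  (L.all fun P => L.any fun Q => Q.d == P.d && covB a b L Q) &&
  (L.all fun P => L.all fun Q => pairB a b L P Q) &&
  (L.all fun P => L.all fun Q => P == Q || !(keyOpen P.f == keyOpen Q.f) ||
    !(ctr2 a b P.d P.f == ctr2 a b Q.d Q.f)) &&
  surjB a b L

theorem cov_aux (ha : 0 ≤ a) (hb : 0 ≤ b) (hk : 0 < kk a b) {c : Cell} {x : ℂ}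
    (hx : x ∈ Q47.Cube.cell c) {lo hi lo' hi' : ℤ} (h1 : inX a b c lo hi = true)
    (h2 : inY a b c lo' hi' = true) :
    ((lo : ℝ) ≤ TT a b x 0 ∧ TT a b x 0 ≤ hi) ∧ (lo' : ℝ) ≤ TT a b x 1 ∧ TT a b x 1 ≤ hi' := by
  simp only [inX, inY, Bool.and_eq_true, decide_eq_true_eq] at h1 h2
  obtain ⟨x1, x2, x3, x4⟩ := hx
  have hk' : (0 : ℝ) < (kk a b : ℝ) := by exact_mod_cast hk
  have ha' : (0 : ℝ) ≤ a := by exact_mod_cast ha
  have hb' : (0 : ℝ) ≤ b := by exact_mod_cast hb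
  have e1 : ((kk a b * lo : ℤ) : ℝ) ≤ ((XX a b c : ℤ) : ℝ) := by exact_mod_cast h1.1
  have e2 : ((XX a b c + a + b : ℤ) : ℝ) ≤ ((kk a b * hi : ℤ) : ℝ) := by exact_mod_cast h1.2
  have e3 : ((kk a b * lo' : ℤ) : ℝ) ≤ ((YY a b c - b : ℤ) : ℝ) := by exact_mod_cast h2.1
  have e4 : ((YY a b c + a : ℤ) : ℝ) ≤ ((kk a b * hi' : ℤ) : ℝ) := by exact_mod_cast h2.2
  unfold XX at e1 e2
  unfold YY at e3 e4
  push_cast at e1 e2 e3 e4
  refine ⟨⟨?_, ?_⟩, ?_, ?_⟩
  · rw [TT_zero, le_div_iff₀ hk']; nlinarith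
  · rw [TT_zero, div_le_iff₀ hk']; nlinarith
  · rw [TT_one, le_div_iff₀ hk']; nlinarith
  · rw [TT_one, div_le_iff₀ hk']; nlinarith

theorem good_of_check (h : goodB a b L = true) : Good a b L := by
  simp only [goodB, Bool.and_eq_true, List.all_eq_true, decide_eq_true_eq] at h
  obtain ⟨⟨⟨⟨⟨⟨⟨ha, hb⟩, hk⟩, hok⟩, hcov⟩, hpair⟩, huniq⟩, hsurj⟩ := h
  have hhasC : ∀ c, c ∈ cellsOf L → hasC L c = true := by
    intro c hc
    obtain ⟨P, hP, hPc⟩ := mem_cellsOf.1 hc
    simp only [hasC, List.any_eq_true, beq_iff_eq]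
    exact ⟨P, hP, hPc⟩
  have hok' : ∀ P ∈ L, okFrame P.f = true ∧ keyOpen P.f ∈ surfKeys 1 ∧
      crossT P.f.u P.f.v = nrm P.f := by
    intro P hP
    have := hok P hP
    simp only [okB, Bool.and_eq_true, List.contains_eq_mem, decide_eq_true_eq, beq_iff_eq] at this
    exact ⟨this.1.1, this.1.2, this.2⟩
  have hp : ∀ P ∈ L, ∀ Q ∈ L, (nearB P.d Q.d = true → cons2 P.f Q.f = true) ∧
      (Q.d = (P.d.1 + 1, P.d.2 + 1) → diag1 a b L P Q = true) ∧
      (Q.d = (P.d.1 + 1, P.d.2 - 1) → diag2 a b L P Q = true) := by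
    intro P hP Q hQ
    have := hpair P hP Q hQ
    simp only [pairB, Bool.and_eq_true, Bool.or_eq_true, Bool.not_eq_true', beq_eq_false_iff_ne]
      at this
    obtain ⟨⟨t1, t2⟩, t3⟩ := this
    refine ⟨fun h => ?_, fun h => ?_, fun h => ?_⟩
    · rcases t1 with t1 | t1
      · rw [h] at t1; exact absurd t1 (by simp)
      · exact t1
    · exact t2.resolve_left fun h' => h' h
    · exact t3.resolve_left fun h' => h' h
  refine
    { ha := ha
      hb := hb
      hk := hk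
      ok := fun P hP => (hok' P hP).1
      key := fun P hP => (hok' P hP).2.1
      ori := fun P hP => (hok' P hP).2.2
      cov := ?_
      near := fun P hP Q hQ => (hp P hP Q hQ).1
      val1 := ?_
      val2 := ?_
      blk1 := ?_
      blk2 := ?_
      uniq := ?_
      surj := ?_ }
  · intro P hP x hx
    have h1 := hcov P hP
    rw [List.any_eq_true] at h1
    obtain ⟨Q, hQ, h2⟩ := h1
    simp only [Bool.and_eq_true, beq_iff_eq] at h2
    obtain ⟨hQd, h2⟩ := h2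
    rw [← hQd] at hx
    simp only [covB, Bool.or_eq_true, Bool.and_eq_true] at h2
    rcases h2 with (⟨h3, h4⟩ | ⟨⟨h5, h3⟩, h4⟩) | ⟨⟨h5, h3⟩, h4⟩
    · obtain ⟨⟨a1, a2⟩, a3, a4⟩ := cov_aux ha hb hk hx h3 h4
      push_cast at a2 a4
      exact ⟨Q, hQ, ⟨hx, a1, a2, a3, a4⟩, hQd⟩
    · obtain ⟨⟨a1, a2⟩, a3, a4⟩ := cov_aux ha hb hk hx h3 h4
      push_cast at a2 a4
      simp only [hasP, List.any_eq_true, Bool.and_eq_true, beq_iff_eq] at h5
      obtain ⟨R, hR, hRd, hRc⟩ := h5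
      rcases le_total (TT a b x 0) (Q.f.c.1 + 1) with h6 | h6
      · exact ⟨Q, hQ, ⟨hx, a1, h6, a3, a4⟩, hQd⟩
      · refine ⟨R, hR, ⟨by rw [hRd]; exact hx, ?_⟩, hRd.trans hQd⟩
        rw [hRc]
        refine ⟨?_, ?_, ?_, ?_⟩ <;> push_cast <;> linarith
    · obtain ⟨⟨a1, a2⟩, a3, a4⟩ := cov_aux ha hb hk hx h3 h4
      push_cast at a2 a4
      simp only [hasP, List.any_eq_true, Bool.and_eq_true, beq_iff_eq] at h5
      obtain ⟨R, hR, hRd, hRc⟩ := h5
      rcases le_total (TT a b x 1) (Q.f.c.2 + 1) with h6 | h6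
      · exact ⟨Q, hQ, ⟨hx, a1, a2, a3, h6⟩, hQd⟩
      · refine ⟨R, hR, ⟨by rw [hRd]; exact hx, ?_⟩, hRd.trans hQd⟩
        rw [hRc]
        refine ⟨?_, ?_, ?_, ?_⟩ <;> push_cast <;> linarith
  · intro P hP Q hQ hd h1 h2
    have h3 := (hp P hP Q hQ).2.1 hd
    simp only [diag1, Bool.and_eq_true, Bool.or_eq_true, Bool.not_eq_true', beq_iff_eq] at h3
    rcases h3.1 with h4 | h4
    · rw [ptInB_iff.2 h1, ptInB_iff.2 h2] at h4; exact absurd h4 (by simp)
    · exact h4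
  · intro P hP Q hQ hd h1 h2
    have h3 := (hp P hP Q hQ).2.2 hd
    simp only [diag2, Bool.and_eq_true, Bool.or_eq_true, Bool.not_eq_true', beq_iff_eq] at h3
    rcases h3.1 with h4 | h4
    · rw [ptInB_iff.2 h1, ptInB_iff.2 h2] at h4; exact absurd h4 (by simp)
    · exact h4
  · intro P hP Q hQ hd h1 h2
    have h3 := (hp P hP Q hQ).2.1 hd
    simp only [diag1, Bool.and_eq_true, Bool.or_eq_true, Bool.not_eq_true'] at h3
    rcases h3.2 with h4 | h4
    · rw [hhasC _ h1, hhasC _ h2] at h4; exact absurd h4 (by simp)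
    · refine ⟨h4.1.1, h4.1.2, fun hv => ?_⟩
      have := vertB_iff.2 hv
      rw [h4.2] at this; exact absurd this (by simp)
  · intro P hP Q hQ hd h1 h2
    have h3 := (hp P hP Q hQ).2.2 hd
    simp only [diag2, Bool.and_eq_true, Bool.or_eq_true, Bool.not_eq_true'] at h3
    rcases h3.2 with h4 | h4
    · rw [hhasC _ h1, hhasC _ h2] at h4; exact absurd h4 (by simp)
    · exact h4
  · intro P hP Q hQ h1 h2
    have h3 := huniq P hP Q hQ
    simp only [Bool.or_eq_true, Bool.not_eq_true', beq_iff_eq, beq_eq_false_iff_ne] at h3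
    rcases h3 with (h3 | h3) | h3
    · exact h3
    · exact absurd h1 h3
    · exact absurd h2 h3
  · intro G hG c b1 b2 b3 b4 hs
    simp only [surjB, List.all_eq_true] at hsurj
    have h1 := hsurj G hG c.1 (mem_ranges.2 ⟨b1, by omega⟩) c.2 (mem_ranges.2 ⟨b3, by omega⟩)
    rw [Bool.or_eq_true] at h1
    rcases h1 with h1 | h1
    · exact absurd (sepB_iff.1 h1) hs
    · rw [List.any_eq_true] at h1
      obtain ⟨P, hP, h2⟩ := h1
      simp only [Bool.and_eq_true, beq_iff_eq] at h2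
      exact ⟨P, hP, h2.1, h2.2⟩

/-! ### edge-connected sets of cells are polyominoes -/

theorem isOpen_ocell (c : Cell) : IsOpen (ocell c) := by
  have : ocell c = Complex.re ⁻¹' Ioo (c.1 : ℝ) (c.1 + 1) ∩
      Complex.im ⁻¹' Ioo (c.2 : ℝ) (c.2 + 1) := by
    ext z; simp only [ocell, mem_inter_iff, mem_preimage, mem_Ioo, Set.mem_ofPred_eq]; tauto
  rw [this]
  exact (isOpen_Ioo.preimage Complex.continuous_re).inter (isOpen_Ioo.preimage Complex.continuous_im)

theorem ocell_subset_cell (c : Cell) : ocell c ⊆ Q47.Cube.cell c :=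
  fun _ h => ⟨h.1.le, h.2.1.le, h.2.2.1.le, h.2.2.2.le⟩

theorem convex_box (x0 x1 y0 y1 : ℝ) :
    Convex ℝ {z : ℂ | x0 ≤ z.re ∧ z.re ≤ x1 ∧ y0 ≤ z.im ∧ z.im ≤ y1} := by
  intro p hp q hq s t hs ht hst
  obtain ⟨p1, p2, p3, p4⟩ := hp
  obtain ⟨q1, q2, q3, q4⟩ := hq
  have e1 : (s • p + t • q).re = s * p.re + t * q.re := by simp
  have e2 : (s • p + t • q).im = s * p.im + t * q.im := by simp
  have ht' : t = 1 - s := by linarith
  subst ht'
  refine ⟨?_, ?_, ?_, ?_⟩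
  · rw [e1]; nlinarith
  · rw [e1]; nlinarith
  · rw [e2]; nlinarith
  · rw [e2]; nlinarith

theorem convex_pair {c d : Cell} (h : Q139.Net.Adj c d) :
    Convex ℝ (Q47.Cube.cell c ∪ Q47.Cube.cell d) := by
  have key : ∀ c d : Cell, (d = (c.1 + 1, c.2) ∨ d = (c.1, c.2 + 1)) →
      Convex ℝ (Q47.Cube.cell c ∪ Q47.Cube.cell d) := by
    rintro c d (rfl | rfl)
    · have : Q47.Cube.cell c ∪ Q47.Cube.cell (c.1 + 1, c.2) =
          {z : ℂ | (c.1 : ℝ) ≤ z.re ∧ z.re ≤ c.1 + 2 ∧ (c.2 : ℝ) ≤ z.im ∧ z.im ≤ c.2 + 1} := by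
        ext z
        simp only [Q47.Cube.cell, mem_union, Set.mem_ofPred_eq]
        push_cast
        constructor
        · rintro (⟨h1, h2, h3, h4⟩ | ⟨h1, h2, h3, h4⟩)
          · exact ⟨h1, by linarith, h3, h4⟩
          · exact ⟨by linarith, by linarith, h3, h4⟩
        · rintro ⟨h1, h2, h3, h4⟩
          rcases le_total z.re (c.1 + 1) with h5 | h5
          · exact Or.inl ⟨h1, h5, h3, h4⟩
          · exact Or.inr ⟨h5, by linarith, h3, h4⟩
      rw [this]; exact convex_box _ _ _ _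
    · have : Q47.Cube.cell c ∪ Q47.Cube.cell (c.1, c.2 + 1) =
          {z : ℂ | (c.1 : ℝ) ≤ z.re ∧ z.re ≤ c.1 + 1 ∧ (c.2 : ℝ) ≤ z.im ∧ z.im ≤ c.2 + 2} := by
        ext z
        simp only [Q47.Cube.cell, mem_union, Set.mem_ofPred_eq]
        push_cast
        constructor
        · rintro (⟨h1, h2, h3, h4⟩ | ⟨h1, h2, h3, h4⟩)
          · exact ⟨h1, h2, h3, by linarith⟩
          · exact ⟨h1, h2, by linarith, by linarith⟩
        · rintro ⟨h1, h2, h3, h4⟩
          rcases le_total z.im (c.2 + 1) with h5 | h5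
          · exact Or.inl ⟨h1, h2, h3, h5⟩
          · exact Or.inr ⟨h1, h2, h5, by linarith⟩
      rw [this]; exact convex_box _ _ _ _
  rcases h with ⟨h1, h2⟩ | ⟨h1, h2⟩
  · rcases (abs_eq (zero_le_one' ℤ)).1 h2 with h2 | h2
    · rw [union_comm]
      exact key d c (Or.inr (Prod.ext (by simpa using h1) (by simp only; omega)))
    · exact key c d (Or.inr (Prod.ext (by simpa using h1.symm) (by simp only; omega)))
  · rcases (abs_eq (zero_le_one' ℤ)).1 h2 with h2 | h2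
    · rw [union_comm]
      exact key d c (Or.inl (Prod.ext (by simp only; omega) (by simpa using h1)))
    · exact key c d (Or.inl (Prod.ext (by simp only; omega) (by simpa using h1.symm)))

theorem ocell_nonempty (c : Cell) : (ocell c).Nonempty := by
  refine ⟨⟨c.1 + 1 / 2, c.2 + 1 / 2⟩, ?_, ?_, ?_, ?_⟩ <;> simp only <;> linarith

theorem convex_ocell (c : Cell) : Convex ℝ (ocell c) := by
  have : ocell c = Complex.reLm ⁻¹' Ioo (c.1 : ℝ) (c.1 + 1) ∩
      Complex.imLm ⁻¹' Ioo (c.2 : ℝ) (c.2 + 1) := by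
    ext z
    simp only [ocell, mem_inter_iff, mem_preimage, mem_Ioo, Set.mem_ofPred_eq, Complex.reLm_coe,
      Complex.imLm_coe]
    tauto
  rw [this]
  exact ((convex_Ioo _ _).linear_preimage _).inter ((convex_Ioo _ _).linear_preimage _)

theorem isPolyomino_of_edgeConnected {s : Finset Cell} (h : Q139.Net.EdgeConnected s) :
    Q47.Cube.IsPolyomino s := by
  obtain ⟨hne, hconn⟩ := h
  set R := Q47.Cube.region s with hR
  -- star of a cell
  set W : Cell → Set ℂ := fun c => ocell c ∪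
    ⋃ d ∈ {d | Q139.Net.Adj c d ∧ d ∈ s}, interior (Q47.Cube.cell c ∪ Q47.Cube.cell d) with hW
  have hoc : ∀ c d, ocell c ⊆ interior (Q47.Cube.cell c ∪ Q47.Cube.cell d) := fun c d =>
    interior_maximal ((ocell_subset_cell c).trans subset_union_left) (isOpen_ocell c)
  have hoc' : ∀ c d, ocell d ⊆ interior (Q47.Cube.cell c ∪ Q47.Cube.cell d) := fun c d =>
    interior_maximal ((ocell_subset_cell d).trans subset_union_right) (isOpen_ocell d)
  have hWpre : ∀ c ∈ (s : Set Cell), IsPreconnected (W c) := by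
    intro c _
    obtain ⟨z, hz⟩ := ocell_nonempty c
    have hoconv : IsPreconnected (ocell c) := by
      exact (convex_ocell c).isPreconnected
    have hu : W c = ⋃₀ ({ocell c} ∪ (fun d => interior (Q47.Cube.cell c ∪ Q47.Cube.cell d)) ''
        {d | Q139.Net.Adj c d ∧ d ∈ s}) := by
      rw [hW]; simp only [sUnion_union, sUnion_singleton, sUnion_image]
    rw [hu]
    refine isPreconnected_sUnion z _ ?_ ?_
    · rintro _ (h | ⟨d, -, rfl⟩)
      · rw [Set.mem_singleton_iff] at h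
        rw [h]; exact hz
      · exact hoc c d hz
    · rintro _ (h | ⟨d, hd, rfl⟩)
      · rw [Set.mem_singleton_iff] at h
        rw [h]; exact hoconv
      · exact (convex_pair hd.1).interior.isPreconnected
  have hU : IsPreconnected (⋃ c ∈ (s : Set Cell), W c) := by
    refine IsPreconnected.biUnion_of_reflTransGen hWpre ?_
    intro c hc d hd
    have := hconn c hc d hd
    have key : ∀ e, Relation.ReflTransGen (fun x y => Q139.Net.Adj x y ∧ y ∈ s) c e →
        e ∈ s ∧ Relation.ReflTransGen (fun i j => (W i ∩ W j).Nonempty ∧ i ∈ (s : Set Cell)) c e := by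
      intro e he
      induction he with
      | refl => exact ⟨hc, Relation.ReflTransGen.refl⟩
      | tail _ hxy ih =>
        obtain ⟨h1, h2⟩ := ih
        refine ⟨hxy.2, h2.tail ⟨?_, h1⟩⟩
        rename_i x y _
        obtain ⟨z, hz⟩ := ocell_nonempty y
        refine ⟨z, Or.inr ?_, Or.inl hz⟩
        exact mem_biUnion (show y ∈ {d | Q139.Net.Adj x d ∧ d ∈ s} from hxy) (hoc' x y hz)
    exact (key d this).2
  have hsub : (⋃ c ∈ (s : Set Cell), W c) ⊆ interior R := by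
    refine iUnion₂_subset fun c hc => union_subset ?_ (iUnion₂_subset fun d hd => ?_)
    · exact interior_maximal ((ocell_subset_cell c).trans (Q47.Cube.cell_subset_region hc))
        (isOpen_ocell c)
    · exact interior_mono (union_subset (Q47.Cube.cell_subset_region hc)
        (Q47.Cube.cell_subset_region hd.2))
  have hcl : interior R ⊆ closure (⋃ c ∈ (s : Set Cell), W c) := by
    intro z hz
    have h1 := interior_subset hz
    simp only [hR, Q47.Cube.region, mem_iUnion] at h1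
    obtain ⟨c, hc, hzc⟩ := h1
    have h2 : Q47.Cube.cell c ⊆ closure (ocell c) := by
      refine (Q47.Cube.cell_subset_closure c).trans (closure_mono ?_)
      intro w hw
      rw [Q47.Cube.cell_eq, Complex.interior_reProdIm, interior_Icc, interior_Icc] at hw
      exact ⟨hw.1.1, hw.1.2, hw.2.1, hw.2.2⟩
    exact closure_mono (fun w hw => mem_biUnion (show c ∈ (s : Set Cell) from hc) (Or.inl hw))
      (h2 hzc)
  refine ⟨?_, hU.subset_closure hsub hcl⟩
  obtain ⟨c, hc⟩ := hne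
  obtain ⟨z, hz⟩ := ocell_nonempty c
  exact ⟨z, hsub (mem_biUnion (show c ∈ (s : Set Cell) from hc) (Or.inl hz))⟩

end Q139.Obl
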