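import Pool.Agent.Q139.Obl.Top

/-!
Injectivity and surjectivity of the folding map of a certificate.
-/

open Set Metric Filter Topology

namespace Q139.Obl

open Q139.Net (Cell E2 E3 T3 Fr aff addT co_addT units dotT okFrame okFrame_co okFrame_dot aff_dist
  aff_apply continuous_aff cons cons_spec aff_congr keyOpen surfKeys mem_surfKeys keyOpen_co negT)

variable {a b : ℤ} {L : List Pc}

theorem AA_inj (hk : 0 < kk a b) {f : Fr} (hf : OkF f) {x y : ℂ} (h : AA a b f x = AA a b f y) :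
    x = y := by
  have := dist_AA hk hf.ok x y
  rw [h, dist_self] at this
  exact dist_eq_zero.1 this.symm

theorem rho_dist (hk : 0 < kk a b) {f g : Fr} (hf : OkF f) (hg : OkF g) {ρ : ℂ → ℂ}
    (h : ∀ x, AA a b g (ρ x) = AA a b f x) (x y : ℂ) : dist (ρ x) (ρ y) = dist x y := by
  rw [← dist_AA hk hg.ok, h, h, dist_AA hk hf.ok]

theorem units_cases' {f : Fr} (hf : OkF f) {g : T3} (hg : g ∈ units) :
    g = nrm f ∨ g = negT (nrm f) ∨ g = f.u ∨ g = negT f.u ∨ g = f.v ∨ g = negT f.v := by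
  have := units_cases f.u hf.u f.v hf.v (by rw [hf.ori]; exact hf.n) g hg
  rwa [hf.ori] at this

theorem negT_negT (a : T3) : negT (negT a) = a := by simp [negT]

/-- at an interior point, every face that contains the image occurs -/
theorem Good.face_at (h : Good a b L) {x : ℂ} (hx : x ∈ interior (Q47.Cube.region (cellsOf L)))
    {g : T3} (hg : g ∈ units) (hl : lev √(kk a b : ℝ) g (phi a b L x) = 1) :
    ∃ P ∈ L, At a b P x ∧ nrm P.f = g := by
  obtain ⟨P, hP, hPx⟩ := h.region_iff.1 (interior_subset hx)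
  have hf := h.okF hP
  rw [h.phi_eq hP hPx] at hl
  obtain ⟨l1, l2, l3, l4, l5, l6⟩ := hf.levs h.hk x
  obtain ⟨s1, s2, s3, s4⟩ := hPx.2
  rcases units_cases' hf hg with e | e | e | e | e | e
  · exact ⟨P, hP, hPx, e.symm⟩
  · rw [e, l2] at hl; norm_num at hl
  · rw [e, l3] at hl
    have hα : TT a b x 0 = P.f.c.1 + 1 := by linarith
    obtain ⟨Q, hQ, hQc, hQx⟩ := h.int_sq hx (c := (P.f.c.1 + 1, P.f.c.2)) (by
      refine ⟨?_, ?_, ?_, ?_⟩ <;> push_cast <;> linarith)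
    refine ⟨Q, hQ, hQx, ?_⟩
    obtain ⟨c1, c2, c3⟩ := cons2_spec (h.cons_at hx hP hQ hPx hQx).1
    obtain ⟨-, d2, -, -, -⟩ := cons_spec c1
    rw [(right_nb hf (h.okF hQ) (d2 hQc).1 (d2 hQc).2 (c2 hQc)).1, e]
  · rw [e, l4] at hl
    have hα : TT a b x 0 = P.f.c.1 := by linarith
    obtain ⟨Q, hQ, hQc, hQx⟩ := h.int_sq hx (c := (P.f.c.1 - 1, P.f.c.2)) (by
      refine ⟨?_, ?_, ?_, ?_⟩ <;> push_cast <;> linarith)
    refine ⟨Q, hQ, hQx, ?_⟩
    obtain ⟨c1, c2, c3⟩ := cons2_spec (h.cons_at hx hP hQ hPx hQx).2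
    obtain ⟨-, d2, -, -, -⟩ := cons_spec c1
    have hc : P.f.c = (Q.f.c.1 + 1, Q.f.c.2) := by rw [hQc]; simp
    have := (right_nb (h.okF hQ) hf (d2 hc).1 (d2 hc).2 (c2 hc)).2
    rw [e, this, negT_negT]
  · rw [e, l5] at hl
    have hα : TT a b x 1 = P.f.c.2 + 1 := by linarith
    obtain ⟨Q, hQ, hQc, hQx⟩ := h.int_sq hx (c := (P.f.c.1, P.f.c.2 + 1)) (by
      refine ⟨?_, ?_, ?_, ?_⟩ <;> push_cast <;> linarith)
    refine ⟨Q, hQ, hQx, ?_⟩
    obtain ⟨c1, c2, c3⟩ := cons2_spec (h.cons_at hx hP hQ hPx hQx).1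
    obtain ⟨-, -, d3, -, -⟩ := cons_spec c1
    rw [(up_nb hf (h.okF hQ) (d3 hQc).1 (d3 hQc).2 (c3 hQc)).1, e]
  · rw [e, l6] at hl
    have hα : TT a b x 1 = P.f.c.2 := by linarith
    obtain ⟨Q, hQ, hQc, hQx⟩ := h.int_sq hx (c := (P.f.c.1, P.f.c.2 - 1)) (by
      refine ⟨?_, ?_, ?_, ?_⟩ <;> push_cast <;> linarith)
    refine ⟨Q, hQ, hQx, ?_⟩
    obtain ⟨c1, c2, c3⟩ := cons2_spec (h.cons_at hx hP hQ hPx hQx).2
    obtain ⟨-, -, d3, -, -⟩ := cons_spec c1
    have hc : P.f.c = (Q.f.c.1, Q.f.c.2 + 1) := by rw [hQc]; simp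
    have := (up_nb (h.okF hQ) hf (d3 hc).1 (d3 hc).2 (c3 hc)).2
    rw [e, this, negT_negT]

/-- strict interior of the tilted square -/
def osq (c : Cell) : Set E2 :=
  {p | (c.1 : ℝ) < p 0 ∧ p 0 < c.1 + 1 ∧ (c.2 : ℝ) < p 1 ∧ p 1 < c.2 + 1}

theorem continuous_coord (i : Fin 2) : Continuous fun p : E2 => p i :=
  (continuous_apply i).comp (PiLp.continuous_ofLp 2 _)

theorem isOpen_osq (c : Cell) : IsOpen (osq c) := by
  have : osq c = ((fun p : E2 => p 0) ⁻¹' Ioo (c.1 : ℝ) (c.1 + 1)) ∩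
      ((fun p : E2 => p 1) ⁻¹' Ioo (c.2 : ℝ) (c.2 + 1)) := by
    ext p
    simp only [osq, mem_inter_iff, mem_preimage, mem_Ioo, Set.mem_ofPred_eq]
    tauto
  rw [this]
  exact (isOpen_Ioo.preimage (continuous_coord 0)).inter (isOpen_Ioo.preimage (continuous_coord 1))

theorem osq_transfer (hk : 0 < kk a b) {f g : Fr} (hf : OkF f) (hg : OkF g) (h : nrm f = nrm g)
    {x y : ℂ} (hxy : AA a b g y = AA a b f x) (hx : TT a b x ∈ osq f.c) : TT a b y ∈ osq g.c := by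
  obtain ⟨-, -, l3, l4, l5, l6⟩ := hf.levs hk x
  obtain ⟨-, -, m3, m4, m5, m6⟩ := hg.levs hk y
  rw [hxy] at m3 m4 m5 m6
  obtain ⟨h1, h2, h3, h4⟩ := hx
  rcases same_face hf hg h with ⟨e1, e2, -⟩ | ⟨e1, e2, -⟩ | ⟨e1, e2, -⟩ | ⟨e1, e2, -⟩
  · rw [e1, l3] at m3; rw [e2, l5] at m5
    refine ⟨?_, ?_, ?_, ?_⟩ <;> linarith
  · rw [e1, l5] at m3; rw [e2, l4] at m5
    refine ⟨?_, ?_, ?_, ?_⟩ <;> linarith
  · rw [e1, l4] at m3; rw [e2, l6] at m5
    refine ⟨?_, ?_, ?_, ?_⟩ <;> linarith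
  · rw [e1, l6] at m3; rw [e2, l3] at m5
    refine ⟨?_, ?_, ?_, ?_⟩ <;> linarith

theorem ball_interior {x : ℂ} {s : Set ℂ} (hx : x ∈ interior s) : ∃ δ > 0, ball x δ ⊆ interior s :=
  Metric.isOpen_iff.1 isOpen_interior x hx

theorem Good.injOn (h : Good a b L) :
    InjOn (phi a b L) (interior (Q47.Cube.region (cellsOf L))) := by
  intro x1 hx1 x2 hx2 heq
  obtain ⟨P1, hP1, hPx1⟩ := h.region_iff.1 (interior_subset hx1)
  have hf1 := h.okF hP1
  have e1 := h.phi_eq hP1 hPx1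
  obtain ⟨P2, hP2, hPx2, hn⟩ := h.face_at hx2 hf1.n (by
    rw [← heq, e1]; exact (hf1.levs h.hk x1).1)
  have hf2 := h.okF hP2
  have e2 := h.phi_eq hP2 hPx2
  obtain ⟨ρ, hρ, hcell⟩ := rel h.hk hf1 hf2 hn.symm
  have hρ1 : ρ x1 = x2 := AA_inj h.hk hf2 (by rw [hρ, ← e1, ← e2, heq])
  obtain ⟨δ1, hδ1, hb1⟩ := ball_interior hx1
  obtain ⟨δ2, hδ2, hb2⟩ := ball_interior hx2
  obtain ⟨δ3, hδ3, hb3⟩ := local_at a b L x1
  obtain ⟨δ4, hδ4, hb4⟩ := local_at a b L x2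
  obtain ⟨δ, hδ, h1, h2, h3, h4⟩ : ∃ δ > 0, δ ≤ δ1 ∧ δ ≤ δ2 ∧ δ ≤ δ3 ∧ δ ≤ δ4 :=
    ⟨min (min δ1 δ2) (min δ3 δ4), lt_min (lt_min hδ1 hδ2) (lt_min hδ3 hδ4),
      (min_le_left _ _).trans (min_le_left _ _), (min_le_left _ _).trans (min_le_right _ _),
      (min_le_right _ _).trans (min_le_left _ _), (min_le_right _ _).trans (min_le_right _ _)⟩
  -- generic point
  have hVo : IsOpen (ball x1 δ ∩ TT a b ⁻¹' osq P1.f.c) :=
    isOpen_ball.inter ((isOpen_osq _).preimage continuous_TT)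
  have hVn : (ball x1 δ ∩ TT a b ⁻¹' osq P1.f.c).Nonempty := by
    set q : E2 := WithLp.toLp 2 ![(P1.f.c.1 : ℝ) + 1 / 2, (P1.f.c.2 : ℝ) + 1 / 2] with hq
    have htend : Tendsto (gam x1 (TI a b q)) (𝓝[>] (0 : ℝ)) (𝓝 x1) := by
      have := (continuous_gam x1 (TI a b q)).tendsto 0
      rw [gam_zero] at this
      exact this.mono_left nhdsWithin_le_nhds
    obtain ⟨t, ht1, ht2⟩ := ((htend.eventually_mem (ball_mem_nhds x1 hδ)).and
      (Ioo_mem_nhdsGT (zero_lt_one' ℝ))).exists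
    refine ⟨_, ht1, ?_⟩
    obtain ⟨s1, s2, s3, s4⟩ := hPx1.2
    have e0 : q 0 = (P1.f.c.1 : ℝ) + 1 / 2 := rfl
    have e1 : q 1 = (P1.f.c.2 : ℝ) + 1 / 2 := rfl
    obtain ⟨t0, t1⟩ := ht2
    refine ⟨?_, ?_, ?_, ?_⟩
    · rw [TT_gam, TT_TI h.hk, e0]; nlinarith
    · rw [TT_gam, TT_TI h.hk, e0]; nlinarith
    · rw [TT_gam, TT_TI h.hk, e1]; nlinarith
    · rw [TT_gam, TT_TI h.hk, e1]; nlinarith
  obtain ⟨w, ⟨hwb, hwq⟩, hwN⟩ := exists_generic hVo hVn
  have hwo := ocell_floor hwN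
  set c : Cell := (⌊w.re⌋, ⌊w.im⌋) with hc
  obtain ⟨c', hc', hcc, hoc⟩ := hcell c
  have hw'o := hoc w hwo
  have hw'q : TT a b (ρ w) ∈ osq P2.f.c := osq_transfer h.hk hf1 hf2 hn.symm (hρ w) hwq
  have hw'b : ρ w ∈ ball x2 δ := by
    rw [mem_ball, ← hρ1, rho_dist h.hk hf1 hf2 hρ]; exact hwb
  have hcl : ∀ {z : ℂ} {d : Cell}, z ∈ ocell d → z ∈ Q47.Cube.cell d :=
    fun hz => ⟨hz.1.le, hz.2.1.le, hz.2.2.1.le, hz.2.2.2.le⟩
  obtain ⟨R, hR, hRd, hRw⟩ := h.int_cell (hb1 (ball_subset_ball h1 hwb)) (hcl hwo)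
  obtain ⟨R', hR', hRd', hRw'⟩ := h.int_cell (hb2 (ball_subset_ball h2 hw'b)) (hcl hw'o)
  have hRc : R.f.c = P1.f.c := sq_unique hwq.1 hwq.2.1 hwq.2.2.1 hwq.2.2.2 hRw.2
  have hRc' : R'.f.c = P2.f.c := sq_unique hw'q.1 hw'q.2.1 hw'q.2.2.1 hw'q.2.2.2 hRw'.2
  have hRx := hb3 w (ball_subset_ball h3 hwb) R hR hRw
  have hRx' := hb4 (ρ w) (ball_subset_ball h4 hw'b) R' hR' hRw'
  have hRf : R.f = P1.f := h.same_at hx1 hR hP1 hRx hPx1 hRc
  have hRf' : R'.f = P2.f := h.same_at hx2 hR' hP2 hRx' hPx2 hRc'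
  have hRR : R = R' := by
    refine h.uniq R hR R' hR' ?_ ?_
    · rw [hRf, hRf']; exact nrm_inj hn.symm
    · rw [hRf, hRf', hRd, hRd', hc']
  have hff : P1.f = P2.f := by rw [← hRf, ← hRf', hRR]
  refine AA_inj h.hk hf1 ?_
  rw [← e1, heq, e2, hff]

/-! ### surjectivity -/

theorem refs_ok {G : Fr} (hG : G ∈ refs) : OkF G ∧ G.c = (0, 0) := by
  simp only [refs, List.mem_cons, List.not_mem_nil, or_false] at hG
  rcases hG with rfl | rfl | rfl | rfl | rfl | rfl <;>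
    exact ⟨⟨by decide, by decide, by decide, by decide⟩, rfl⟩

/-- the point of the plane with given tilted coordinates -/
noncomputable def pt (a b : ℤ) (α β : ℝ) : ℂ := TI a b (WithLp.toLp 2 ![α, β])

theorem TT_pt (hk : 0 < kk a b) (α β : ℝ) : TT a b (pt a b α β) 0 = α ∧
    TT a b (pt a b α β) 1 = β := by
  rw [pt, TT_TI hk]; exact ⟨rfl, rfl⟩

theorem Good.open_face (h : Good a b L) {G : Fr} (hG : G ∈ refs) {α β : ℝ} (hα0 : 0 < α)
    (hα1 : α < 1) (hβ0 : 0 < β) (hβ1 : β < 1) :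
    AA a b G (pt a b α β) ∈ phi a b L '' Q47.Cube.region (cellsOf L) := by
  obtain ⟨hGo, hGc⟩ := refs_ok hG
  obtain ⟨t0, t1⟩ := TT_pt h.hk α β
  set x := pt a b α β with hx
  have hkR : (0 : ℝ) < (kk a b : ℝ) := by exact_mod_cast h.hk
  have ea : (0 : ℝ) ≤ a := by exact_mod_cast h.ha
  have eb : (0 : ℝ) ≤ b := by exact_mod_cast h.hb
  have ek := @kk_cast a b
  have xr : x.re = a * α - b * β := rfl
  have xi : x.im = b * α + a * β := rfl
  have hab : 0 < a ∨ 0 < b := by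
    by_contra hcon
    push Not at hcon
    have h1 : a = 0 := le_antisymm hcon.1 h.ha
    have h2 : b = 0 := le_antisymm hcon.2 h.hb
    have := h.hk
    rw [h1, h2] at this
    simp [kk] at this
  set c : Cell := (⌊x.re⌋, ⌊x.im⌋) with hc
  have f1 := Int.floor_le x.re
  have f2 := Int.lt_floor_add_one x.re
  have f3 := Int.floor_le x.im
  have f4 := Int.lt_floor_add_one x.im
  have b1 : -b ≤ c.1 := by
    show -b ≤ ⌊x.re⌋
    rw [Int.le_floor, xr]; push_cast; nlinarith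
  have b2 : c.1 < a := by
    show ⌊x.re⌋ < a
    rw [Int.floor_lt, xr]
    rcases hab with h1 | h1
    · have : (0 : ℝ) < a := by exact_mod_cast h1
      nlinarith
    · have : (0 : ℝ) < b := by exact_mod_cast h1
      nlinarith
  have b3 : 0 ≤ c.2 := by
    show 0 ≤ ⌊x.im⌋
    rw [Int.le_floor, xi]; push_cast; nlinarith
  have b4 : c.2 < a + b := by
    show ⌊x.im⌋ < a + b
    rw [Int.floor_lt, xi]; push_cast
    rcases hab with h1 | h1
    · have : (0 : ℝ) < a := by exact_mod_cast h1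
      nlinarith
    · have : (0 : ℝ) < b := by exact_mod_cast h1
      nlinarith
  have hcc1 : (c.1 : ℝ) ≤ x.re := f1
  have hcc2 : x.re < c.1 + 1 := f2
  have hcc3 : (c.2 : ℝ) ≤ x.im := f3
  have hcc4 : x.im < c.2 + 1 := f4
  have X0 : a * x.re + b * x.im = kk a b * α := by rw [xr, xi, ek]; ring
  have Y0 : -b * x.re + a * x.im = kk a b * β := by rw [xr, xi, ek]; ring
  have hsep : ¬ sep a b c := by
    rintro (hs | hs | hs | hs)
    · have : ((XX a b c + a + b : ℤ) : ℝ) ≤ 0 := by exact_mod_cast hs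
      unfold XX at this; push_cast at this
      have : 0 < kk a b * α := mul_pos hkR hα0
      nlinarith
    · have : ((kk a b : ℤ) : ℝ) ≤ ((XX a b c : ℤ) : ℝ) := by exact_mod_cast hs
      unfold XX at this; push_cast at this
      have : kk a b * α < kk a b := by nlinarith
      nlinarith
    · have : ((YY a b c + a : ℤ) : ℝ) ≤ 0 := by exact_mod_cast hs
      unfold YY at this; push_cast at this
      have : 0 < kk a b * β := mul_pos hkR hβ0
      nlinarith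
    · have : ((kk a b : ℤ) : ℝ) ≤ ((YY a b c - b : ℤ) : ℝ) := by exact_mod_cast hs
      unfold YY at this; push_cast at this
      have : kk a b * β < kk a b := by nlinarith
      nlinarith
  obtain ⟨P, hP, hkey, hctr⟩ := h.surj G hG c b1 b2 b3 b4 hsep
  have hf := h.okF hP
  have hn : nrm G = nrm P.f := by rw [nrm, nrm, hkey]
  obtain ⟨ρ, hρ, hcell⟩ := rel h.hk hGo hf hn
  obtain ⟨c', hc', hcin, -⟩ := hcell c
  have hcd : c' = P.d := ctr2_inj h.hk hf (by rw [hc', hctr])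
  have hin : ρ x ∈ Q47.Cube.cell P.d := by
    rw [← hcd]
    exact hcin x ⟨hcc1, hcc2.le, hcc3, hcc4.le⟩
  have hosq : TT a b (ρ x) ∈ osq P.f.c := by
    refine osq_transfer h.hk hGo hf hn (hρ x) ?_
    rw [hGc]
    refine ⟨?_, ?_, ?_, ?_⟩
    · rw [t0]; simpa using hα0
    · rw [t0]; simpa using hα1
    · rw [t1]; simpa using hβ0
    · rw [t1]; simpa using hβ1
  have hAt : At a b P (ρ x) := ⟨hin, hosq.1.le, hosq.2.1.le, hosq.2.2.1.le, hosq.2.2.2.le⟩
  exact ⟨ρ x, h.region_iff.2 ⟨P, hP, hAt⟩, by rw [h.phi_eq hP hAt, hρ]⟩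

theorem Good.closed_face (h : Good a b L) {G : Fr} (hG : G ∈ refs) {α β : ℝ} (hα0 : 0 ≤ α)
    (hα1 : α ≤ 1) (hβ0 : 0 ≤ β) (hβ1 : β ≤ 1) :
    AA a b G (pt a b α β) ∈ phi a b L '' Q47.Cube.region (cellsOf L) := by
  have hcl : IsClosed (phi a b L '' Q47.Cube.region (cellsOf L)) :=
    ((Q47.Cube.isCompact_region _).image_of_continuousOn h.continuousOn).isClosed
  have hcont : Continuous fun t : ℝ =>
      AA a b G (pt a b (α + t * (1 / 2 - α)) (β + t * (1 / 2 - β))) := by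
    refine (continuous_AA G).comp ?_
    have : (fun t : ℝ => pt a b (α + t * (1 / 2 - α)) (β + t * (1 / 2 - β))) =
        fun t : ℝ => ((a * (α + t * (1 / 2 - α)) - b * (β + t * (1 / 2 - β)) : ℝ) : ℂ) +
          ((b * (α + t * (1 / 2 - α)) + a * (β + t * (1 / 2 - β)) : ℝ) : ℂ) * Complex.I := by
      ext t
      apply Complex.ext
      · simp [pt, TI]
      · simp [pt, TI]
    rw [this]
    fun_prop
  have htend : Tendsto (fun t : ℝ =>
      AA a b G (pt a b (α + t * (1 / 2 - α)) (β + t * (1 / 2 - β)))) (𝓝[>] (0 : ℝ))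
      (𝓝 (AA a b G (pt a b α β))) := by
    have := hcont.tendsto 0
    simp only [zero_mul, add_zero] at this
    exact this.mono_left nhdsWithin_le_nhds
  refine hcl.mem_of_tendsto htend ?_
  filter_upwards [Ioo_mem_nhdsGT (zero_lt_one' ℝ)] with t ht
  exact h.open_face hG (by nlinarith [ht.1, ht.2]) (by nlinarith [ht.1, ht.2])
    (by nlinarith [ht.1, ht.2]) (by nlinarith [ht.1, ht.2])

theorem Good.image (h : Good a b L) :
    phi a b L '' Q47.Cube.region (cellsOf L) = Q47.Cube.cubeSurface √(kk a b : ℝ) := by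
  apply Subset.antisymm
  · rintro _ ⟨x, hx, rfl⟩
    exact h.maps hx
  · intro w hw
    have hl := sqrt_pos' h.hk
    obtain ⟨h1, i, h2⟩ := hw
    have q : ∀ i, 0 ≤ w i / √(kk a b : ℝ) ∧ w i / √(kk a b : ℝ) ≤ 1 := fun i =>
      ⟨div_nonneg (h1 i).1 hl.le, (div_le_one hl).2 (h1 i).2⟩
    have hw' : ∀ i, w i = √(kk a b : ℝ) * (w i / √(kk a b : ℝ)) := fun i => by
      field_simp
    -- choose the face and the parameters
    have key : ∀ G ∈ refs, ∀ α β : ℝ, 0 ≤ α → α ≤ 1 → 0 ≤ β → β ≤ 1 →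
        (∀ j, w j = √(kk a b : ℝ) * ((G.o.co j : ℝ) + α * G.u.co j + β * G.v.co j)) →
        w ∈ phi a b L '' Q47.Cube.region (cellsOf L) := by
      intro G hG α β a0 a1 b0 b1 he
      have := h.closed_face hG a0 a1 b0 b1
      have hwe : w = AA a b G (pt a b α β) := by
        ext j
        rw [AA_apply, (TT_pt h.hk α β).1, (TT_pt h.hk α β).2, (refs_ok hG).2, he j]
        push_cast; ring
      rw [hwe]; exact this
    fin_cases i
    · rcases h2 with h2 | h2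
      · refine key ⟨(0, 0), (0, 0, 0), (0, 0, 1), (0, 1, 0)⟩ (by simp [refs])
          (w 2 / √(kk a b : ℝ)) (w 1 / √(kk a b : ℝ)) (q 2).1 (q 2).2 (q 1).1 (q 1).2 ?_
        intro j
        fin_cases j
        · rw [show w (((fun i => i) ⟨0, by decide⟩ : Fin 3)) = w 0 from rfl]
          change w 0 = 0 at h2
          rw [h2]; simp [T3.co]
        · show w 1 = _
          simp [T3.co]; rw [← hw']
        · show w 2 = _
          simp [T3.co]; rw [← hw']
      · refine key ⟨(0, 0), (1, 0, 0), (0, 1, 0), (0, 0, 1)⟩ (by simp [refs])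
          (w 1 / √(kk a b : ℝ)) (w 2 / √(kk a b : ℝ)) (q 1).1 (q 1).2 (q 2).1 (q 2).2 ?_
        intro j
        fin_cases j
        · show w 0 = _
          change w 0 = _ at h2
          rw [h2]; simp [T3.co]
        · show w 1 = _
          simp [T3.co]; rw [← hw']
        · show w 2 = _
          simp [T3.co]; rw [← hw']
    · rcases h2 with h2 | h2
      · refine key ⟨(0, 0), (0, 0, 0), (1, 0, 0), (0, 0, 1)⟩ (by simp [refs])
          (w 0 / √(kk a b : ℝ)) (w 2 / √(kk a b : ℝ)) (q 0).1 (q 0).2 (q 2).1 (q 2).2 ?_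
        intro j
        fin_cases j
        · show w 0 = _
          simp [T3.co]; rw [← hw']
        · show w 1 = _
          change w 1 = _ at h2
          rw [h2]; simp [T3.co]
        · show w 2 = _
          simp [T3.co]; rw [← hw']
      · refine key ⟨(0, 0), (0, 1, 0), (0, 0, 1), (1, 0, 0)⟩ (by simp [refs])
          (w 2 / √(kk a b : ℝ)) (w 0 / √(kk a b : ℝ)) (q 2).1 (q 2).2 (q 0).1 (q 0).2 ?_
        intro j
        fin_cases j
        · show w 0 = _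
          simp [T3.co]; rw [← hw']
        · show w 1 = _
          change w 1 = _ at h2
          rw [h2]; simp [T3.co]
        · show w 2 = _
          simp [T3.co]; rw [← hw']
    · rcases h2 with h2 | h2
      · refine key ⟨(0, 0), (0, 0, 0), (0, 1, 0), (1, 0, 0)⟩ (by simp [refs])
          (w 1 / √(kk a b : ℝ)) (w 0 / √(kk a b : ℝ)) (q 1).1 (q 1).2 (q 0).1 (q 0).2 ?_
        intro j
        fin_cases j
        · show w 0 = _
          simp [T3.co]; rw [← hw']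
        · show w 1 = _
          simp [T3.co]; rw [← hw']
        · show w 2 = _
          change w 2 = _ at h2
          rw [h2]; simp [T3.co]
      · refine key ⟨(0, 0), (0, 0, 1), (1, 0, 0), (0, 1, 0)⟩ (by simp [refs])
          (w 0 / √(kk a b : ℝ)) (w 1 / √(kk a b : ℝ)) (q 0).1 (q 0).2 (q 1).1 (q 1).2 ?_
        intro j
        fin_cases j
        · show w 0 = _
          simp [T3.co]; rw [← hw']
        · show w 1 = _
          simp [T3.co]; rw [← hw']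
        · show w 2 = _
          change w 2 = _ at h2
          rw [h2]; simp [T3.co]

end Q139.Obl
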