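import Pool.Agent.Q139.Obl.Inj

/-!
The folding map of a certificate is locally an isometry for the intrinsic distance.
-/

open Set Metric Filter Topology
open scoped ENNReal

namespace Q139.Obl

open Q139.Net (Cell E2 E3 T3 Fr aff addT co_addT units dotT okFrame okFrame_co okFrame_dot aff_dist
  aff_apply continuous_aff cons cons_spec aff_congr keyOpen surfKeys mem_surfKeys keyOpen_co negT)
open Q47.Cube (pathDist cubeSurface)

variable {a b : ℤ} {L : List Pc}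

theorem dist_coord (w w' : E3) (i : Fin 3) : |w i - w' i| ≤ dist w w' :=
  Q47.Cube.abs_coord_le w w' i

/-- paths between two adjacent faces near an edge cross the edge -/
theorem edge_lower {l : ℝ} (hl : 0 < l) {i j m : Fin 3} (hij : i ≠ j) (him : i ≠ m) (hjm : j ≠ m)
    {y0 A B : E3} {r D : ℝ} (hi : y0 i = 0 ∨ y0 i = l) (hj : y0 j = 0 ∨ y0 j = l)
    (hr1 : 2 * r ≤ y0 m) (hr2 : 2 * r ≤ l - y0 m) (hr3 : 2 * r ≤ l)
    (hA : A i = y0 i) (hB : B j = y0 j) (dA : dist A y0 < r) (hD : D < r)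
    (hE : ∀ E : E3, E i = y0 i → E j = y0 j → D ≤ dist A E + dist E B) :
    ENNReal.ofReal D ≤ pathDist (cubeSurface l) A B := by
  unfold pathDist
  refine le_iInf₂ fun γ hγ => ?_
  obtain ⟨hc, hS, h0, h1⟩ := hγ
  by_cases hbig : ENNReal.ofReal r ≤ eVariationOn γ (Icc 0 1)
  · exact (ENNReal.ofReal_le_ofReal hD.le).trans hbig
  rw [not_le] at hbig
  have hnear : ∀ t ∈ Icc (0 : ℝ) 1, dist (γ t) y0 < 2 * r := by
    intro t ht
    have h2 : edist (γ t) (γ 0) ≤ eVariationOn γ (Icc 0 1) :=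
      eVariationOn.edist_le γ ht (by simp)
    have h3 := h2.trans_lt hbig
    rw [h0, edist_dist, ENNReal.ofReal_lt_ofReal_iff_of_nonneg dist_nonneg] at h3
    have := dist_triangle (γ t) A y0
    linarith
  have hor : ∀ t ∈ Icc (0 : ℝ) 1, γ t i = y0 i ∨ γ t j = y0 j := by
    intro t ht
    have hd := hnear t ht
    have ci := abs_lt.1 ((dist_coord (γ t) y0 i).trans_lt hd)
    have cj := abs_lt.1 ((dist_coord (γ t) y0 j).trans_lt hd)
    have cm := abs_lt.1 ((dist_coord (γ t) y0 m).trans_lt hd)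
    obtain ⟨-, n, hn⟩ := hS t ht
    rcases Q47.Cube.cases_three hij him hjm n with rfl | rfl | rfl
    · left
      rcases hn with hn | hn <;> rcases hi with hi | hi <;> rw [hn, hi] at ci ⊢ <;>
        exfalso <;> linarith [ci.1, ci.2]
    · right
      rcases hn with hn | hn <;> rcases hj with hj | hj <;> rw [hn, hj] at cj ⊢ <;>
        exfalso <;> linarith [cj.1, cj.2]
    · exfalso
      rcases hn with hn | hn <;> rw [hn] at cm <;> linarith [cm.1, cm.2]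
  have hcc : ∀ n : Fin 3, ContinuousOn (fun t => γ t n) (Icc 0 1) := fun n =>
    ((continuous_apply n).comp (PiLp.continuous_ofLp 2 _)).comp_continuousOn hc
  set f : ℝ → ℝ := fun t => |γ t i - y0 i| - |γ t j - y0 j| with hf
  have hfc : ContinuousOn f (Icc 0 1) :=
    ((hcc i).sub continuousOn_const).abs.sub ((hcc j).sub continuousOn_const).abs
  have hf0 : f 0 ≤ 0 := by
    simp only [hf, h0, hA, sub_self, abs_zero, zero_sub]
    linarith [abs_nonneg (A j - y0 j)]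
  have hf1 : 0 ≤ f 1 := by
    simp only [hf, h1, hB, sub_self, abs_zero, sub_zero]
    exact abs_nonneg _
  obtain ⟨t, ht, hft⟩ := intermediate_value_Icc zero_le_one hfc ⟨hf0, hf1⟩
  have hti : γ t i = y0 i ∧ γ t j = y0 j := by
    simp only [hf] at hft
    rcases hor t ht with h | h
    · rw [h, sub_self, abs_zero, zero_sub, neg_eq_zero, abs_eq_zero, sub_eq_zero] at hft
      exact ⟨h, hft⟩
    · rw [h, sub_self, abs_zero, sub_zero, abs_eq_zero, sub_eq_zero] at hft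
      exact ⟨hft, h⟩
  have hsum := hE (γ t) hti.1 hti.2
  have hadd := eVariationOn.Icc_add_Icc γ (s := univ) (a := 0) (b := t) (c := 1) ht.1 ht.2
    (mem_univ _)
  simp only [univ_inter] at hadd
  rw [← hadd]
  have e1 : edist A (γ t) ≤ eVariationOn γ (Icc 0 t) := by
    rw [← h0]
    exact eVariationOn.edist_le γ (left_mem_Icc.2 ht.1) (right_mem_Icc.2 ht.1)
  have e2 : edist (γ t) B ≤ eVariationOn γ (Icc t 1) := by
    rw [← h1]
    exact eVariationOn.edist_le γ (left_mem_Icc.2 ht.2) (right_mem_Icc.2 ht.2)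
  calc ENNReal.ofReal D ≤ ENNReal.ofReal (dist A (γ t) + dist (γ t) B) :=
        ENNReal.ofReal_le_ofReal hsum
    _ = edist A (γ t) + edist (γ t) B := by
        rw [ENNReal.ofReal_add dist_nonneg dist_nonneg, edist_dist, edist_dist]
    _ ≤ _ := add_le_add e1 e2

/-- one side of the edge to the other side -/
theorem cross_dist {l : ℝ} (hl : 0 < l) {p : ℂ} {ε r : ℝ} {φ A A' : ℂ → E3} {h : ℂ → ℝ}
    (hh : ∀ x y t, h (gam x y t) = h x + t * (h y - h x))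
    (hA : ∀ x y, dist (A x) (A y) = dist x y) (hA' : ∀ x y, dist (A' x) (A' y) = dist x y)
    (hs : ∀ x ∈ ball p ε, φ x ∈ cubeSurface l)
    (h1 : ∀ x ∈ ball p ε, h x ≤ 0 → φ x = A x) (h2 : ∀ x ∈ ball p ε, 0 ≤ h x → φ x = A' x)
    (hε : 0 < ε) (hp : h p = 0) {i j m : Fin 3} (hij : i ≠ j) (him : i ≠ m) (hjm : j ≠ m)
    (hAi : ∀ x, A x i = φ p i) (hA'j : ∀ x, A' x j = φ p j)
    (hi : φ p i = 0 ∨ φ p i = l) (hj : φ p j = 0 ∨ φ p j = l)
    (hE : ∀ E : E3, E i = φ p i → E j = φ p j → ∃ e, A e = E ∧ A' e = E)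
    (hr0 : 2 * ε ≤ r) (hr1 : 2 * r ≤ φ p m) (hr2 : 2 * r ≤ l - φ p m) (hr3 : 2 * r ≤ l)
    {x y : ℂ} (hx : x ∈ ball p ε) (hy : y ∈ ball p ε) (hx0 : h x ≤ 0) (hy0 : 0 ≤ h y) :
    pathDist (cubeSurface l) (φ x) (φ y) = edist x y := by
  have hpb : p ∈ ball p ε := mem_ball_self hε
  apply le_antisymm
  · -- the crossing point
    obtain ⟨t, t0, t1, ht⟩ : ∃ t, 0 ≤ t ∧ t ≤ 1 ∧ h (gam x y t) = 0 := by
      rcases eq_or_lt_of_le (show 0 ≤ h y - h x by linarith) with h3 | h3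
      · exact ⟨0, le_rfl, zero_le_one, by rw [hh]; linarith⟩
      · refine ⟨-h x / (h y - h x), div_nonneg (by linarith) h3.le, ?_, ?_⟩
        · rw [div_le_one h3]; linarith
        · rw [hh]; field_simp; ring
    set q := gam x y t with hq
    have hqseg : q ∈ segment ℝ x y := by
      rw [segment_eq_image']
      exact ⟨t, ⟨t0, t1⟩, by simp only [hq, gam, Complex.real_smul]⟩
    have hqb : q ∈ ball p ε := (convex_ball p ε).segment_subset hx hy hqseg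
    have q1 := h1 q hqb ht.le
    have q2 := h2 q hqb ht.ge
    have s1 : segment ℝ (φ x) (φ q) ⊆ cubeSurface l := by
      have e1 : φ x i = φ p i := by rw [h1 x hx hx0, hAi]
      have e2 : φ q i = φ p i := by rw [q1, hAi]
      exact Q47.Cube.segment_face (hs x hx) (hs q hqb) (by rw [e1]; exact hi) (by rw [e1, e2])
    have s2 : segment ℝ (φ q) (φ y) ⊆ cubeSurface l := by
      have e1 : φ y j = φ p j := by rw [h2 y hy hy0, hA'j]
      have e2 : φ q j = φ p j := by rw [q2, hA'j]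
      exact Q47.Cube.segment_face (hs q hqb) (hs y hy) (by rw [e2]; exact hj) (by rw [e1, e2])
    refine (Q47.Cube.pathDist_le_two s1 s2).trans ?_
    have d1 : dist (φ x) (φ q) = dist x q := by rw [h1 x hx hx0, q1, hA]
    have d2 : dist (φ q) (φ y) = dist q y := by rw [h2 y hy hy0, q2, hA']
    rw [edist_dist, edist_dist, d1, d2, ← ENNReal.ofReal_add dist_nonneg dist_nonneg,
      dist_add_dist_of_mem_segment hqseg, edist_dist]
  · rw [edist_dist]
    have hd : dist x y < r := by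
      have h3 := mem_ball.1 hx
      have h4 := mem_ball.1 hy
      have := dist_triangle_right x y p
      linarith
    refine edge_lower hl hij him hjm hi hj hr1 hr2 hr3 ?_ ?_ ?_ hd ?_
    · rw [h1 x hx hx0, hAi]
    · rw [h2 y hy hy0, hA'j]
    · rw [h1 x hx hx0, h1 p hpb hp.le, hA]
      have h3 := mem_ball.1 hx
      linarith [dist_nonneg (x := x) (y := p)]
    · intro E e1 e2
      obtain ⟨e, he1, he2⟩ := hE E e1 e2
      rw [h1 x hx hx0, h2 y hy hy0]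
      conv_rhs => rw [← he1]
      rw [hA]
      rw [he1, ← he2, hA']
      exact dist_triangle x e y

theorem two_sided {l : ℝ} (hl : 0 < l) {p : ℂ} {ε : ℝ} {φ A A' : ℂ → E3} {h : ℂ → ℝ}
    (hh : ∀ x y t, h (gam x y t) = h x + t * (h y - h x))
    (hA : ∀ x y, dist (A x) (A y) = dist x y) (hA' : ∀ x y, dist (A' x) (A' y) = dist x y)
    (hs : ∀ x ∈ ball p ε, φ x ∈ cubeSurface l)
    (h1 : ∀ x ∈ ball p ε, h x ≤ 0 → φ x = A x) (h2 : ∀ x ∈ ball p ε, 0 ≤ h x → φ x = A' x)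
    (hε : 0 < ε) (hp : h p = 0) {i j m : Fin 3} (hij : i ≠ j) (him : i ≠ m) (hjm : j ≠ m)
    (hAi : ∀ x, A x i = φ p i) (hA'j : ∀ x, A' x j = φ p j)
    (hi : φ p i = 0 ∨ φ p i = l) (hj : φ p j = 0 ∨ φ p j = l) (hm : 0 < φ p m ∧ φ p m < l)
    (hE : ∀ E : E3, E i = φ p i → E j = φ p j → ∃ e, A e = E ∧ A' e = E) :
    ∃ ε' > 0, ∀ x ∈ ball p ε', ∀ y ∈ ball p ε',
      pathDist (cubeSurface l) (φ x) (φ y) = edist x y := by
  obtain ⟨r, hr, hr1, hr2, hr3⟩ : ∃ r > 0, 2 * r ≤ φ p m ∧ 2 * r ≤ l - φ p m ∧ 2 * r ≤ l := by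
    refine ⟨min (φ p m) (l - φ p m) / 2, by
      have := lt_min hm.1 (sub_pos.2 hm.2); linarith, ?_, ?_, ?_⟩
    · have := min_le_left (φ p m) (l - φ p m); linarith
    · have := min_le_right (φ p m) (l - φ p m); linarith
    · have := min_le_left (φ p m) (l - φ p m); linarith [hm.2]
  refine ⟨min ε (r / 2), lt_min hε (by linarith), fun x hx y hy => ?_⟩
  set ε' := min ε (r / 2) with hε'
  have hε'0 : 0 < ε' := lt_min hε (by linarith)
  have hsub : ball p ε' ⊆ ball p ε := ball_subset_ball (min_le_left _ _)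
  have hr0 : 2 * ε' ≤ r := by have := min_le_right ε (r / 2); linarith
  rcases le_total (h x) 0 with hx0 | hx0 <;> rcases le_total (h y) 0 with hy0 | hy0
  · have ex := h1 x (hsub hx) hx0
    have ey := h1 y (hsub hy) hy0
    have s1 : segment ℝ (φ x) (φ y) ⊆ cubeSurface l :=
      Q47.Cube.segment_face (hs x (hsub hx)) (hs y (hsub hy)) (by rw [ex, hAi]; exact hi)
        (by rw [ex, ey, hAi, hAi])
    rw [Q47.Cube.pathDist_eq_of_segment s1, edist_dist, edist_dist, ex, ey, hA]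
  · exact cross_dist hl hh hA hA' (fun x hx => hs x (hsub hx)) (fun x hx => h1 x (hsub hx))
      (fun x hx => h2 x (hsub hx)) hε'0 hp hij him hjm hAi hA'j hi hj hE hr0 hr1 hr2 hr3 hx hy hx0
      hy0
  · refine cross_dist (h := fun x => - h x) hl (fun x y t => by rw [hh]; ring) hA' hA
      (fun x hx => hs x (hsub hx))
      (fun x hx h0 => h2 x (hsub hx) (by linarith)) (fun x hx h0 => h1 x (hsub hx) (by linarith))
      hε'0 (by rw [hp]; ring) hij.symm hjm him hA'j hAi hj hi (fun E e1 e2 => ?_) hr0 hr1 hr2 hr3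
      hx hy (by linarith) (by linarith)
    obtain ⟨e, he1, he2⟩ := hE E e2 e1
    exact ⟨e, he2, he1⟩
  · have ex := h2 x (hsub hx) hx0
    have ey := h2 y (hsub hy) hy0
    have s1 : segment ℝ (φ x) (φ y) ⊆ cubeSurface l :=
      Q47.Cube.segment_face (hs x (hsub hx)) (hs y (hsub hy)) (by rw [ex, hA'j]; exact hj)
        (by rw [ex, ey, hA'j, hA'j])
    rw [Q47.Cube.pathDist_eq_of_segment s1, edist_dist, edist_dist, ex, ey, hA']

theorem index_aux : ∀ u ∈ units, ∀ v ∈ units, crossT u v ∈ units → ∃ i j m : Fin 3,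
    i ≠ j ∧ i ≠ m ∧ j ≠ m ∧
    ((crossT u v).co i = 1 ∨ (crossT u v).co i = -1) ∧ (crossT u v).co j = 0 ∧
    (crossT u v).co m = 0 ∧ u.co i = 0 ∧ (u.co j = 1 ∨ u.co j = -1) ∧ u.co m = 0 ∧
    v.co i = 0 ∧ v.co j = 0 ∧ (v.co m = 1 ∨ v.co m = -1) := by
  decide +kernel

theorem OkF.index {f : Fr} (hf : OkF f) : ∃ i j m : Fin 3,
    i ≠ j ∧ i ≠ m ∧ j ≠ m ∧
    ((nrm f).co i = 1 ∨ (nrm f).co i = -1) ∧ (nrm f).co j = 0 ∧
    (nrm f).co m = 0 ∧ f.u.co i = 0 ∧ (f.u.co j = 1 ∨ f.u.co j = -1) ∧ f.u.co m = 0 ∧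
    f.v.co i = 0 ∧ f.v.co j = 0 ∧ (f.v.co m = 1 ∨ f.v.co m = -1) := by
  have := index_aux f.u hf.u f.v hf.v (by rw [hf.ori]; exact hf.n)
  rwa [hf.ori] at this

/-- points near an interior point -/
theorem Good.nbhd (h : Good a b L) {p : ℂ} (hp : p ∈ interior (Q47.Cube.region (cellsOf L))) :
    ∃ ε > 0, (∀ x ∈ ball p ε, phi a b L x ∈ cubeSurface √(kk a b : ℝ)) ∧
      ∀ x ∈ ball p ε, ∃ P ∈ L, At a b P x ∧ At a b P p := by
  obtain ⟨δ1, hδ1, hb1⟩ := ball_interior hp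
  obtain ⟨δ3, hδ3, hb3⟩ := local_at a b L p
  refine ⟨min δ1 δ3, lt_min hδ1 hδ3, fun x hx => ?_, fun x hx => ?_⟩
  · exact h.maps (interior_subset (hb1 (ball_subset_ball (min_le_left _ _) hx)))
  · obtain ⟨P, hP, hPx⟩ := h.region_iff.1
      (interior_subset (hb1 (ball_subset_ball (min_le_left _ _) hx)))
    exact ⟨P, hP, hPx, hb3 x (ball_subset_ball (min_le_right _ _) hx) P hP hPx⟩

theorem ends_of {l : ℝ} {n : ℤ} (hn : n = 1 ∨ n = -1) :
    l / 2 * (1 + (n : ℝ)) = 0 ∨ l / 2 * (1 + (n : ℝ)) = l := by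
  rcases hn with rfl | rfl
  · right; push_cast; ring
  · left; push_cast; ring

theorem inner_of {l : ℝ} (hl : 0 < l) {n : ℤ} (hn : n = 1 ∨ n = -1) {β : ℝ} (h0 : 0 < β)
    (h1 : β < 1) : 0 < l / 2 * (1 + (2 * β - 1) * (n : ℝ)) ∧
      l / 2 * (1 + (2 * β - 1) * (n : ℝ)) < l := by
  rcases hn with rfl | rfl
  · push_cast; constructor <;> nlinarith
  · push_cast; constructor <;> nlinarith

theorem Good.iso_right (h : Good a b L) {p : ℂ} (hp : p ∈ interior (Q47.Cube.region (cellsOf L)))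
    {P Q : Pc} (hP : P ∈ L) (hQ : Q ∈ L) (hPp : At a b P p) (hQp : At a b Q p)
    (hc : Q.f.c = (P.f.c.1 + 1, P.f.c.2)) (h1 : (P.f.c.2 : ℝ) < TT a b p 1)
    (h2 : TT a b p 1 < P.f.c.2 + 1) :
    ∃ ε > 0, ∀ x ∈ ball p ε, ∀ y ∈ ball p ε,
      pathDist (cubeSurface √(kk a b : ℝ)) (phi a b L x) (phi a b L y) = edist x y := by
  have hl := sqrt_pos' h.hk
  have hf := h.okF hP
  have hg := h.okF hQ
  obtain ⟨cc1, cc2⟩ := h.cons_at hp hP hQ hPp hQp
  obtain ⟨k1, k2, k3⟩ := cons2_spec cc1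
  obtain ⟨-, d2, -, -, -⟩ := cons_spec k1
  obtain ⟨hv, ho⟩ := d2 hc
  obtain ⟨hn, hu⟩ := right_nb hf hg hv ho (k2 hc)
  obtain ⟨ε, hε, hs, hnb⟩ := h.nbhd hp
  obtain ⟨p1, p2, p3, p4⟩ := hPp.2
  obtain ⟨q1, q2, q3, q4⟩ := hQp.2
  rw [hc] at q1
  push_cast at q1
  have hp0 : TT a b p 0 = P.f.c.1 + 1 := le_antisymm p2 q1
  -- near p
  have hnear : ∀ x ∈ ball p ε, (TT a b x 0 ≤ P.f.c.1 + 1 → phi a b L x = AA a b P.f x) ∧
      ((P.f.c.1 : ℝ) + 1 ≤ TT a b x 0 → phi a b L x = AA a b Q.f x) := by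
    intro x hx
    obtain ⟨R, hR, hRx, hRp⟩ := hnb x hx
    obtain ⟨r1, r2, r3, r4⟩ := hRp.2
    obtain ⟨s1, s2, s3, s4⟩ := hRx.2
    have c2 : R.f.c.2 = P.f.c.2 := by
      have e1 : (R.f.c.2 : ℝ) < (P.f.c.2 + 1 : ℤ) := by push_cast; linarith
      have e2 : (P.f.c.2 : ℝ) < (R.f.c.2 + 1 : ℤ) := by push_cast; linarith
      rw [Int.cast_lt] at e1 e2; omega
    have c1 : R.f.c.1 = P.f.c.1 ∨ R.f.c.1 = P.f.c.1 + 1 := by
      rw [hp0] at r1 r2
      have e1 : (R.f.c.1 : ℝ) ≤ (P.f.c.1 + 1 : ℤ) := by push_cast; linarith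
      have e2 : (P.f.c.1 : ℝ) ≤ (R.f.c.1 : ℤ) := by push_cast; linarith
      rw [Int.cast_le] at e1 e2; omega
    rcases c1 with c1 | c1
    · have hRP : R.f = P.f := h.same_at hp hR hP hRp hPp (Prod.ext c1 c2)
      refine ⟨fun _ => by rw [h.phi_eq hR hRx, hRP], fun h0 => ?_⟩
      rw [h.phi_eq hR hRx, hRP]
      rw [hRP] at s1 s2 s3 s4
      refine AA_congr cc1 cc2 ⟨s1, s2, s3, s4⟩ ?_
      rw [hc]
      refine ⟨?_, ?_, ?_, ?_⟩ <;> push_cast <;> linarith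
    · have hRQ : R.f = Q.f := h.same_at hp hR hQ hRp hQp
        (by rw [hc]; exact Prod.ext c1 c2)
      refine ⟨fun h0 => ?_, fun _ => by rw [h.phi_eq hR hRx, hRQ]⟩
      rw [h.phi_eq hR hRx, hRQ]
      rw [hRQ] at s1 s2 s3 s4
      refine (AA_congr cc1 cc2 ?_ ⟨s1, s2, s3, s4⟩).symm
      rw [hc] at s1 s2 s3 s4
      push_cast at s1 s2 s3 s4
      refine ⟨?_, ?_, ?_, ?_⟩ <;> linarith
  have hphi : phi a b L p = AA a b P.f p := (hnear p (mem_ball_self hε)).1 hp0.le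
  obtain ⟨i, j, m, hij, him, hjm, n1, n2, n3, u1, u2, u3, v1, v2, v3⟩ := hf.index
  set l := √(kk a b : ℝ) with hldef
  have Ai : ∀ x, AA a b P.f x i = l / 2 * (1 + ((nrm P.f).co i : ℝ)) := by
    intro x; rw [AA_form, u1, v1]; push_cast; ring
  have A'j : ∀ x, AA a b Q.f x j = l / 2 * (1 + (P.f.u.co j : ℝ)) := by
    intro x; rw [AA_form, hn, hu, hv, co_negT, n2, v2]; push_cast; ring
  have Apj : AA a b P.f p j = l / 2 * (1 + (P.f.u.co j : ℝ)) := by
    rw [AA_form, n2, v2, hp0]; push_cast; ring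
  have Apm : AA a b P.f p m = l / 2 * (1 + (2 * (TT a b p 1 - P.f.c.2) - 1) * (P.f.v.co m : ℝ)) := by
    rw [AA_form, n3, u3]; push_cast; ring
  refine two_sided (h := fun x => TT a b x 0 - (P.f.c.1 + 1)) (A := AA a b P.f) (A' := AA a b Q.f)
    hl ?_ (dist_AA h.hk hf.ok) (dist_AA h.hk hg.ok) hs ?_ ?_ hε (by rw [hp0]; ring) hij him hjm
    ?_ ?_ ?_ ?_ ?_ ?_
  · intro x y t; simp only; rw [TT_gam]; ring
  · intro x hx h0; exact (hnear x hx).1 (by linarith)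
  · intro x hx h0; exact (hnear x hx).2 (by linarith)
  · intro x; rw [hphi, Ai, Ai]
  · intro x; rw [hphi, A'j, Apj]
  · rw [hphi, Ai]; exact ends_of n1
  · rw [hphi, Apj]; exact ends_of u2
  · rw [hphi, Apm]; exact inner_of hl v3 (by linarith) (by linarith)
  · intro E e1 e2
    rw [hphi, Ai] at e1
    rw [hphi, Apj] at e2
    refine ⟨pt a b (P.f.c.1 + 1) (P.f.c.2 + (1 + P.f.v.co m * (2 * E m / l - 1)) / 2), ?_, ?_⟩
    · ext n
      rw [AA_form, (TT_pt h.hk _ _).1, (TT_pt h.hk _ _).2]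
      rcases Q47.Cube.cases_three hij him hjm n with rfl | rfl | rfl
      · rw [e1, u1, v1]; push_cast; ring
      · rw [e2, n2, v2]; push_cast; ring
      · rw [n3, u3]
        rcases v3 with v3 | v3 <;> rw [v3] <;> push_cast <;> field_simp <;> ring
    · ext n
      rw [AA_form, (TT_pt h.hk _ _).1, (TT_pt h.hk _ _).2, hn, hu, hv, hc, co_negT]
      rcases Q47.Cube.cases_three hij him hjm n with rfl | rfl | rfl
      · rw [e1, u1, v1]; push_cast; ring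
      · rw [e2, n2, v2]; push_cast; ring
      · rw [n3, u3]
        rcases v3 with v3 | v3 <;> rw [v3] <;> push_cast <;> field_simp <;> ring

theorem Good.iso_up (h : Good a b L) {p : ℂ} (hp : p ∈ interior (Q47.Cube.region (cellsOf L)))
    {P Q : Pc} (hP : P ∈ L) (hQ : Q ∈ L) (hPp : At a b P p) (hQp : At a b Q p)
    (hc : Q.f.c = (P.f.c.1, P.f.c.2 + 1)) (h1 : (P.f.c.1 : ℝ) < TT a b p 0)
    (h2 : TT a b p 0 < P.f.c.1 + 1) :
    ∃ ε > 0, ∀ x ∈ ball p ε, ∀ y ∈ ball p ε,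
      pathDist (cubeSurface √(kk a b : ℝ)) (phi a b L x) (phi a b L y) = edist x y := by
  have hl := sqrt_pos' h.hk
  have hf := h.okF hP
  have hg := h.okF hQ
  obtain ⟨cc1, cc2⟩ := h.cons_at hp hP hQ hPp hQp
  obtain ⟨k1, k2, k3⟩ := cons2_spec cc1
  obtain ⟨-, -, d3, -, -⟩ := cons_spec k1
  obtain ⟨hu, ho⟩ := d3 hc
  obtain ⟨hn, hv⟩ := up_nb hf hg hu ho (k3 hc)
  obtain ⟨ε, hε, hs, hnb⟩ := h.nbhd hp
  obtain ⟨p1, p2, p3, p4⟩ := hPp.2
  obtain ⟨q1, q2, q3, q4⟩ := hQp.2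
  rw [hc] at q3
  push_cast at q3
  have hp0 : TT a b p 1 = P.f.c.2 + 1 := le_antisymm p4 q3
  -- near p
  have hnear : ∀ x ∈ ball p ε, (TT a b x 1 ≤ P.f.c.2 + 1 → phi a b L x = AA a b P.f x) ∧
      ((P.f.c.2 : ℝ) + 1 ≤ TT a b x 1 → phi a b L x = AA a b Q.f x) := by
    intro x hx
    obtain ⟨R, hR, hRx, hRp⟩ := hnb x hx
    obtain ⟨r1, r2, r3, r4⟩ := hRp.2
    obtain ⟨s1, s2, s3, s4⟩ := hRx.2
    have c1 : R.f.c.1 = P.f.c.1 := by
      have e1 : (R.f.c.1 : ℝ) < (P.f.c.1 + 1 : ℤ) := by push_cast; linarith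
      have e2 : (P.f.c.1 : ℝ) < (R.f.c.1 + 1 : ℤ) := by push_cast; linarith
      rw [Int.cast_lt] at e1 e2; omega
    have c2 : R.f.c.2 = P.f.c.2 ∨ R.f.c.2 = P.f.c.2 + 1 := by
      rw [hp0] at r3 r4
      have e1 : (R.f.c.2 : ℝ) ≤ (P.f.c.2 + 1 : ℤ) := by push_cast; linarith
      have e2 : (P.f.c.2 : ℝ) ≤ (R.f.c.2 : ℤ) := by push_cast; linarith
      rw [Int.cast_le] at e1 e2; omega
    rcases c2 with c2 | c2
    · have hRP : R.f = P.f := h.same_at hp hR hP hRp hPp (Prod.ext c1 c2)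
      refine ⟨fun _ => by rw [h.phi_eq hR hRx, hRP], fun h0 => ?_⟩
      rw [h.phi_eq hR hRx, hRP]
      rw [hRP] at s1 s2 s3 s4
      refine AA_congr cc1 cc2 ⟨s1, s2, s3, s4⟩ ?_
      rw [hc]
      refine ⟨?_, ?_, ?_, ?_⟩ <;> push_cast <;> linarith
    · have hRQ : R.f = Q.f := h.same_at hp hR hQ hRp hQp
        (by rw [hc]; exact Prod.ext c1 c2)
      refine ⟨fun h0 => ?_, fun _ => by rw [h.phi_eq hR hRx, hRQ]⟩
      rw [h.phi_eq hR hRx, hRQ]
      rw [hRQ] at s1 s2 s3 s4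
      refine (AA_congr cc1 cc2 ?_ ⟨s1, s2, s3, s4⟩).symm
      rw [hc] at s1 s2 s3 s4
      push_cast at s1 s2 s3 s4
      refine ⟨?_, ?_, ?_, ?_⟩ <;> linarith
  have hphi : phi a b L p = AA a b P.f p := (hnear p (mem_ball_self hε)).1 hp0.le
  obtain ⟨i, j, m, hij, him, hjm, n1, n2, n3, u1, u2, u3, v1, v2, v3⟩ := hf.index
  set l := √(kk a b : ℝ) with hldef
  have Ai : ∀ x, AA a b P.f x i = l / 2 * (1 + ((nrm P.f).co i : ℝ)) := by
    intro x; rw [AA_form, u1, v1]; push_cast; ring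
  have A'm : ∀ x, AA a b Q.f x m = l / 2 * (1 + (P.f.v.co m : ℝ)) := by
    intro x; rw [AA_form, hn, hu, hv, co_negT, n3, u3]; push_cast; ring
  have Apm : AA a b P.f p m = l / 2 * (1 + (P.f.v.co m : ℝ)) := by
    rw [AA_form, n3, u3, hp0]; push_cast; ring
  have Apj : AA a b P.f p j = l / 2 * (1 + (2 * (TT a b p 0 - P.f.c.1) - 1) * (P.f.u.co j : ℝ)) := by
    rw [AA_form, n2, v2]; push_cast; ring
  refine two_sided (h := fun x => TT a b x 1 - (P.f.c.2 + 1)) (A := AA a b P.f) (A' := AA a b Q.f)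
    hl ?_ (dist_AA h.hk hf.ok) (dist_AA h.hk hg.ok) hs ?_ ?_ hε (by rw [hp0]; ring) him hij hjm.symm
    ?_ ?_ ?_ ?_ ?_ ?_
  · intro x y t; simp only; rw [TT_gam]; ring
  · intro x hx h0; exact (hnear x hx).1 (by linarith)
  · intro x hx h0; exact (hnear x hx).2 (by linarith)
  · intro x; rw [hphi, Ai, Ai]
  · intro x; rw [hphi, A'm, Apm]
  · rw [hphi, Ai]; exact ends_of n1
  · rw [hphi, Apm]; exact ends_of v3
  · rw [hphi, Apj]; exact inner_of hl u2 (by linarith) (by linarith)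
  · intro E e1 e2
    rw [hphi, Ai] at e1
    rw [hphi, Apm] at e2
    refine ⟨pt a b (P.f.c.1 + (1 + P.f.u.co j * (2 * E j / l - 1)) / 2) (P.f.c.2 + 1), ?_, ?_⟩
    · ext n
      rw [AA_form, (TT_pt h.hk _ _).1, (TT_pt h.hk _ _).2]
      rcases Q47.Cube.cases_three hij him hjm n with rfl | rfl | rfl
      · rw [e1, u1, v1]; push_cast; ring
      · rw [n2, v2]
        rcases u2 with u2 | u2 <;> rw [u2] <;> push_cast <;> field_simp <;> ring
      · rw [e2, n3, u3]; push_cast; ring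
    · ext n
      rw [AA_form, (TT_pt h.hk _ _).1, (TT_pt h.hk _ _).2, hn, hu, hv, hc, co_negT]
      rcases Q47.Cube.cases_three hij him hjm n with rfl | rfl | rfl
      · rw [e1, u1, v1]; push_cast; ring
      · rw [n2, v2]
        rcases u2 with u2 | u2 <;> rw [u2] <;> push_cast <;> field_simp <;> ring
      · rw [e2, n3, u3]; push_cast; ring

theorem Good.iso (h : Good a b L) {p : ℂ} (hp : p ∈ interior (Q47.Cube.region (cellsOf L))) :
    ∃ ε > 0, ∀ x ∈ ball p ε, ∀ y ∈ ball p ε,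
      pathDist (cubeSurface √(kk a b : ℝ)) (phi a b L x) (phi a b L y) = edist x y := by
  obtain ⟨P, hP, hPp⟩ := h.region_iff.1 (interior_subset hp)
  have hf := h.okF hP
  obtain ⟨s1, s2, s3, s4⟩ := hPp.2
  -- not a vertex
  have nv : ∀ j : Cell, TT a b p 0 = j.1 → TT a b p 1 = j.2 → False := h.not_vertex hp
  rcases eq_or_lt_of_le s1 with e1 | e1
  · -- left side
    obtain ⟨Q, hQ, hQc, hQp⟩ := h.int_sq hp (c := (P.f.c.1 - 1, P.f.c.2)) (by
      refine ⟨?_, ?_, ?_, ?_⟩ <;> push_cast <;> linarith)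
    have h3 : (P.f.c.2 : ℝ) < TT a b p 1 := lt_of_le_of_ne s3 fun e => nv P.f.c e1.symm e.symm
    have h4 : TT a b p 1 < P.f.c.2 + 1 := lt_of_le_of_ne s4 fun e =>
      nv (P.f.c.1, P.f.c.2 + 1) e1.symm (by push_cast; exact e)
    refine h.iso_right hp hQ hP hQp hPp (by rw [hQc]; simp) ?_ ?_
    · rw [hQc]; exact h3
    · rw [hQc]; exact h4
  rcases eq_or_lt_of_le s2 with e2 | e2
  · obtain ⟨Q, hQ, hQc, hQp⟩ := h.int_sq hp (c := (P.f.c.1 + 1, P.f.c.2)) (by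
      refine ⟨?_, ?_, ?_, ?_⟩ <;> push_cast <;> linarith)
    have h3 : (P.f.c.2 : ℝ) < TT a b p 1 := lt_of_le_of_ne s3 fun e =>
      nv (P.f.c.1 + 1, P.f.c.2) (by push_cast; exact e2) e.symm
    have h4 : TT a b p 1 < P.f.c.2 + 1 := lt_of_le_of_ne s4 fun e =>
      nv (P.f.c.1 + 1, P.f.c.2 + 1) (by push_cast; exact e2) (by push_cast; exact e)
    exact h.iso_right hp hP hQ hPp hQp hQc h3 h4
  rcases eq_or_lt_of_le s3 with e3 | e3
  · obtain ⟨Q, hQ, hQc, hQp⟩ := h.int_sq hp (c := (P.f.c.1, P.f.c.2 - 1)) (by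
      refine ⟨?_, ?_, ?_, ?_⟩ <;> push_cast <;> linarith)
    refine h.iso_up hp hQ hP hQp hPp (by rw [hQc]; simp) ?_ ?_
    · rw [hQc]; exact e1
    · rw [hQc]; exact e2
  rcases eq_or_lt_of_le s4 with e4 | e4
  · obtain ⟨Q, hQ, hQc, hQp⟩ := h.int_sq hp (c := (P.f.c.1, P.f.c.2 + 1)) (by
      refine ⟨?_, ?_, ?_, ?_⟩ <;> push_cast <;> linarith)
    exact h.iso_up hp hP hQ hPp hQp hQc e1 e2
  -- interior of a face
  obtain ⟨ε, hε, hs, hnb⟩ := h.nbhd hp
  have hnear : ∀ x ∈ ball p ε, phi a b L x = AA a b P.f x := by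
    intro x hx
    obtain ⟨R, hR, hRx, hRp⟩ := hnb x hx
    have hc : R.f.c = P.f.c := sq_unique e1 e2 e3 e4 hRp.2
    rw [h.phi_eq hR hRx, h.same_at hp hR hP hRp hPp hc]
  obtain ⟨i, j, m, hij, him, hjm, n1, n2, n3, u1, u2, u3, v1, v2, v3⟩ := hf.index
  have Ai : ∀ x, AA a b P.f x i = √(kk a b : ℝ) / 2 * (1 + ((nrm P.f).co i : ℝ)) := by
    intro x; rw [AA_form, u1, v1]; push_cast; ring
  refine ⟨ε, hε, fun x hx y hy => ?_⟩
  have s1 : segment ℝ (phi a b L x) (phi a b L y) ⊆ cubeSurface √(kk a b : ℝ) :=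
    Q47.Cube.segment_face (hs x hx) (hs y hy) (i := i) (by rw [hnear x hx, Ai]; exact ends_of n1)
      (by rw [hnear x hx, hnear y hy, Ai, Ai])
  rw [Q47.Cube.pathDist_eq_of_segment s1, edist_dist, edist_dist, hnear x hx, hnear y hy,
    dist_AA h.hk hf.ok]

/-- **Soundness of oblique folding certificates.** -/
theorem Good.folds (h : Good a b L) :
    Q47.Cube.FoldsToCube (Q47.Cube.region (cellsOf L)) √(kk a b : ℝ) :=
  ⟨phi a b L, h.continuousOn, h.image, h.injOn, fun _ hp => h.iso hp⟩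

end Q139.Obl
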