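import Pool.Agent.Q139.Obl.Base

/-!
Relations between frames.
-/

open Set Metric Filter Topology

namespace Q139.Obl

open Q139.Net (Cell E2 E3 T3 Fr aff addT co_addT units dotT okFrame okFrame_co okFrame_dot aff_dist
  aff_apply continuous_aff cons cons_spec aff_congr keyOpen surfKeys mem_surfKeys keyOpen_co negT)

variable {a b : ℤ}

/-- a frame of a face of the unit cube with the right orientation -/
structure OkF (f : Fr) : Prop where
  u : f.u ∈ units
  v : f.v ∈ units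
  n : nrm f ∈ units
  ori : crossT f.u f.v = nrm f

theorem okFrame_units {f : Fr} (h : okFrame f = true) : f.u ∈ units ∧ f.v ∈ units := by
  simp only [okFrame, List.contains_eq_mem, Bool.and_eq_true, decide_eq_true_eq] at h
  exact h.1

theorem surfKeys_one : surfKeys 1 = [(0, 1, 1), (2, 1, 1), (1, 0, 1), (1, 2, 1), (1, 1, 0),
    (1, 1, 2)] := by decide

theorem key_nrm : ∀ t ∈ surfKeys 1, addT t (-1, -1, -1) ∈ units := by decide

theorem nrm_key : ∀ t ∈ units, addT t (1, 1, 1) ∈ surfKeys 1 := by decide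

theorem addT_cancel (t : T3) : addT (addT t (-1, -1, -1)) (1, 1, 1) = t := by
  obtain ⟨x, y, z⟩ := t
  simp [addT]

theorem key_eq_nrm (f : Fr) : keyOpen f = addT (nrm f) (1, 1, 1) := by
  rw [nrm, addT_cancel]

theorem nrm_inj {f g : Fr} (h : nrm f = nrm g) : keyOpen f = keyOpen g := by
  rw [key_eq_nrm, key_eq_nrm, h]

theorem Good.okF {L : List Pc} (h : Good a b L) {P : Pc} (hP : P ∈ L) : OkF P.f := by
  obtain ⟨h1, h2⟩ := okFrame_units (h.ok P hP)
  exact ⟨h1, h2, key_nrm _ (h.key P hP), h.ori P hP⟩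

theorem cross_ortho : ∀ u ∈ units, ∀ v ∈ units, crossT u v ∈ units →
    dotT u v = 0 ∧ dotT u (crossT u v) = 0 ∧ dotT v (crossT u v) = 0 := by
  decide +kernel

theorem OkF.ok {f : Fr} (h : OkF f) : okFrame f = true := by
  have := (cross_ortho f.u h.u f.v h.v (by rw [h.ori]; exact h.n)).1
  simp only [okFrame, List.contains_eq_mem, Bool.and_eq_true, decide_eq_true_eq, beq_iff_eq]
  exact ⟨⟨h.u, h.v⟩, this⟩

theorem OkF.key {f : Fr} (h : OkF f) : keyOpen f ∈ surfKeys 1 := by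
  rw [key_eq_nrm]; exact nrm_key _ h.n

theorem dot_table : ∀ u ∈ units, ∀ v ∈ units, crossT u v ∈ units →
    dotT u u = 1 ∧ dotT v v = 1 ∧ dotT (crossT u v) (crossT u v) = 1 := by
  decide +kernel

theorem units_cases : ∀ u ∈ units, ∀ v ∈ units, crossT u v ∈ units → ∀ g ∈ units,
    g = crossT u v ∨ g = negT (crossT u v) ∨ g = u ∨ g = negT u ∨ g = v ∨ g = negT v := by
  decide +kernel

theorem nb_aux : ∀ n ∈ units, ∀ u ∈ units, ∀ n' ∈ units, ∀ u' ∈ units, dotT n u = 0 →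
    addT n' (negT u') = addT n u → n' ≠ n → n' = u ∧ u' = negT n := by
  decide +kernel

theorem same_aux : ∀ u ∈ units, ∀ v ∈ units, crossT u v ∈ units → ∀ u' ∈ units, ∀ v' ∈ units,
    crossT u' v' = crossT u v →
    (u' = u ∧ v' = v) ∨ (u' = v ∧ v' = negT u) ∨ (u' = negT u ∧ v' = negT v) ∨
    (u' = negT v ∧ v' = u) := by
  decide +kernel

theorem dotT_comm (x y : T3) : dotT x y = dotT y x := by simp only [dotT]; ring

theorem OkF.dots {f : Fr} (h : OkF f) : dotT f.u f.u = 1 ∧ dotT f.v f.v = 1 ∧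
    dotT (nrm f) (nrm f) = 1 ∧ dotT f.u f.v = 0 ∧ dotT f.u (nrm f) = 0 ∧ dotT f.v (nrm f) = 0 := by
  have h0 : crossT f.u f.v ∈ units := by rw [h.ori]; exact h.n
  obtain ⟨a1, a2, a3⟩ := dot_table f.u h.u f.v h.v h0
  obtain ⟨b1, b2, b3⟩ := cross_ortho f.u h.u f.v h.v h0
  rw [h.ori] at a3 b2 b3
  exact ⟨a1, a2, a3, b1, b2, b3⟩

theorem nrm_def (f : Fr) (i : Fin 3) : (nrm f).co i = 2 * f.o.co i + f.u.co i + f.v.co i - 1 := by
  rw [nrm, co_addT, keyOpen_co]
  fin_cases i <;> rfl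

theorem co_negT (t : T3) (i : Fin 3) : (negT t).co i = - t.co i := by
  fin_cases i <;> rfl

/-- the neighbour over the right edge -/
theorem right_nb {f g : Fr} (hf : OkF f) (hg : OkF g) (hv : g.v = f.v) (ho : g.o = addT f.o f.u)
    (hk : keyOpen g ≠ keyOpen f) : nrm g = f.u ∧ g.u = negT (nrm f) := by
  refine nb_aux (nrm f) hf.n f.u hf.u (nrm g) hg.n g.u hg.u ?_ ?_ fun h => hk (nrm_inj h)
  · rw [dotT_comm]; exact hf.dots.2.2.2.2.1
  · refine Q139.Net.T3.ext' fun i => ?_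
    rw [co_addT, co_addT, co_negT, nrm_def, nrm_def, hv, ho, co_addT]
    ring

/-- the neighbour over the upper edge -/
theorem up_nb {f g : Fr} (hf : OkF f) (hg : OkF g) (hu : g.u = f.u) (ho : g.o = addT f.o f.v)
    (hk : keyOpen g ≠ keyOpen f) : nrm g = f.v ∧ g.v = negT (nrm f) := by
  refine nb_aux (nrm f) hf.n f.v hf.v (nrm g) hg.n g.v hg.v ?_ ?_ fun h => hk (nrm_inj h)
  · rw [dotT_comm]; exact hf.dots.2.2.2.2.2
  · refine Q139.Net.T3.ext' fun i => ?_
    rw [co_addT, co_addT, co_negT, nrm_def, nrm_def, hu, ho, co_addT]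
    ring

/-- frames of the same face -/
theorem same_face {f g : Fr} (hf : OkF f) (hg : OkF g) (h : nrm f = nrm g) :
    (g.u = f.u ∧ g.v = f.v ∧ g.o = f.o) ∨
    (g.u = f.v ∧ g.v = negT f.u ∧ g.o = addT f.o f.u) ∨
    (g.u = negT f.u ∧ g.v = negT f.v ∧ g.o = addT (addT f.o f.u) f.v) ∨
    (g.u = negT f.v ∧ g.v = f.u ∧ g.o = addT f.o f.v) := by
  have h1 := same_aux f.u hf.u f.v hf.v (by rw [hf.ori]; exact hf.n) g.u hg.u g.v hg.v
    (by rw [hf.ori, hg.ori, h])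
  have ho : ∀ i, 2 * g.o.co i + g.u.co i + g.v.co i = 2 * f.o.co i + f.u.co i + f.v.co i := by
    intro i
    have := congrArg (fun t => T3.co t i) h
    simp only [nrm_def] at this
    omega
  rcases h1 with ⟨e1, e2⟩ | ⟨e1, e2⟩ | ⟨e1, e2⟩ | ⟨e1, e2⟩
  · left
    refine ⟨e1, e2, Q139.Net.T3.ext' fun i => ?_⟩
    have := ho i
    rw [e1, e2] at this
    omega
  · right; left
    refine ⟨e1, e2, Q139.Net.T3.ext' fun i => ?_⟩
    have := ho i
    rw [e1, e2, co_negT] at this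
    rw [co_addT]; omega
  · right; right; left
    refine ⟨e1, e2, Q139.Net.T3.ext' fun i => ?_⟩
    have := ho i
    rw [e1, e2, co_negT, co_negT] at this
    rw [co_addT, co_addT]; omega
  · right; right; right
    refine ⟨e1, e2, Q139.Net.T3.ext' fun i => ?_⟩
    have := ho i
    rw [e1, e2, co_negT] at this
    rw [co_addT]; omega

/-! ### levels -/

noncomputable def dr (t : T3) (w : E3) : ℝ := (t.co 0 : ℝ) * w 0 + t.co 1 * w 1 + t.co 2 * w 2

/-- `lev l g w = 1` means that `w` is on the face with outer normal `g` -/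
noncomputable def lev (l : ℝ) (g : T3) (w : E3) : ℝ :=
  2 * dr g w / l - ((g.co 0 : ℝ) + g.co 1 + g.co 2)

theorem AA_form (f : Fr) (x : ℂ) (i : Fin 3) :
    AA a b f x i = √(kk a b : ℝ) / 2 * (1 + (nrm f).co i + (2 * (TT a b x 0 - f.c.1) - 1) * f.u.co i
      + (2 * (TT a b x 1 - f.c.2) - 1) * f.v.co i) := by
  rw [AA_apply, nrm_def]
  push_cast
  ring

theorem dotT_cast (s t : T3) : (dotT s t : ℝ) = (s.co 0 : ℝ) * t.co 0 + s.co 1 * t.co 1 +
    s.co 2 * t.co 2 := by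
  simp only [dotT, T3.co, Matrix.cons_val_zero, Matrix.cons_val_one, Matrix.cons_val]
  push_cast; ring

theorem lev_AA (hk : 0 < kk a b) (f : Fr) (x : ℂ) (g : T3) :
    lev (√(kk a b : ℝ)) g (AA a b f x) = dotT g (nrm f) +
      (2 * (TT a b x 0 - f.c.1) - 1) * dotT g f.u + (2 * (TT a b x 1 - f.c.2) - 1) * dotT g f.v := by
  have hk' : √(kk a b : ℝ) ≠ 0 := Real.sqrt_ne_zero'.2 (by exact_mod_cast hk)
  rw [lev, dr, AA_form, AA_form, AA_form, dotT_cast, dotT_cast, dotT_cast]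
  field_simp
  ring

theorem dotT_negT (s t : T3) : dotT (negT s) t = - dotT s t := by
  simp only [dotT, negT]; ring

/-- the levels of the point in terms of the frame -/
theorem OkF.levs {f : Fr} (h : OkF f) (hk : 0 < kk a b) (x : ℂ) :
    lev (√(kk a b : ℝ)) (nrm f) (AA a b f x) = 1 ∧
    lev (√(kk a b : ℝ)) (negT (nrm f)) (AA a b f x) = -1 ∧
    lev (√(kk a b : ℝ)) f.u (AA a b f x) = 2 * (TT a b x 0 - f.c.1) - 1 ∧
    lev (√(kk a b : ℝ)) (negT f.u) (AA a b f x) = 1 - 2 * (TT a b x 0 - f.c.1) ∧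
    lev (√(kk a b : ℝ)) f.v (AA a b f x) = 2 * (TT a b x 1 - f.c.2) - 1 ∧
    lev (√(kk a b : ℝ)) (negT f.v) (AA a b f x) = 1 - 2 * (TT a b x 1 - f.c.2) := by
  obtain ⟨d1, d2, d3, d4, d5, d6⟩ := h.dots
  have d4' := dotT_comm f.u f.v
  have d5' := dotT_comm f.u (nrm f)
  have d6' := dotT_comm f.v (nrm f)
  rw [d4] at d4'; rw [d5] at d5'; rw [d6] at d6'
  refine ⟨?_, ?_, ?_, ?_, ?_, ?_⟩
  · rw [lev_AA hk, d3, ← d5', ← d6']; push_cast; ring
  · rw [lev_AA hk, dotT_negT, dotT_negT, dotT_negT, d3, ← d5', ← d6']; push_cast; ring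
  · rw [lev_AA hk, d5, d1, d4]; push_cast; ring
  · rw [lev_AA hk, dotT_negT, dotT_negT, dotT_negT, d5, d1, d4]; push_cast; ring
  · rw [lev_AA hk, d6, ← d4', d2]; push_cast; ring
  · rw [lev_AA hk, dotT_negT, dotT_negT, dotT_negT, d6, ← d4', d2]; push_cast; ring

/-! ### moving between frames of the same face -/

/-- open cell -/
def ocell (c : Cell) : Set ℂ :=
  {z | (c.1 : ℝ) < z.re ∧ z.re < c.1 + 1 ∧ (c.2 : ℝ) < z.im ∧ z.im < c.2 + 1}

theorem rel {f g : Fr} (hk : 0 < kk a b) (hf : OkF f) (hg : OkF g) (h : nrm f = nrm g) :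
    ∃ ρ : ℂ → ℂ, (∀ x, AA a b g (ρ x) = AA a b f x) ∧
      ∀ c, ∃ c', ctr2 a b c' g = ctr2 a b c f ∧
        (∀ x ∈ Q47.Cube.cell c, ρ x ∈ Q47.Cube.cell c') ∧ (∀ x ∈ ocell c, ρ x ∈ ocell c') := by
  have hk' : (kk a b : ℝ) ≠ 0 := by exact_mod_cast hk.ne'
  have ek := @kk_cast a b
  rcases same_face hf hg h with ⟨e1, e2, e3⟩ | ⟨e1, e2, e3⟩ | ⟨e1, e2, e3⟩ | ⟨e1, e2, e3⟩
  · -- r = 0
    set p1 : ℤ := g.c.1 - f.c.1 with hp1
    set p2 : ℤ := g.c.2 - f.c.2 with hp2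
    refine ⟨fun x => ⟨x.re + (a * p1 - b * p2 : ℤ), x.im + (b * p1 + a * p2 : ℤ)⟩, ?_, ?_⟩
    · intro x
      ext i
      rw [AA_apply, AA_apply, e1, e2, e3, TT_zero, TT_one, TT_zero, TT_one, hp1, hp2]
      push_cast
      field_simp
      rw [ek]; ring
    · intro c
      refine ⟨(c.1 + (a * p1 - b * p2), c.2 + (b * p1 + a * p2)), ?_, ?_, ?_⟩
      · refine Q139.Net.T3.ext' fun i => ?_
        simp only [ctr2, co_addT, co_smulT, e1, e2, e3, XX, YY, kk, hp1, hp2]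
        ring
      · rintro x ⟨h1, h2, h3, h4⟩
        refine ⟨?_, ?_, ?_, ?_⟩ <;> push_cast at * <;> linarith
      · rintro x ⟨h1, h2, h3, h4⟩
        refine ⟨?_, ?_, ?_, ?_⟩ <;> push_cast at * <;> linarith
  · -- r = 1
    set p1 : ℤ := g.c.1 - f.c.2 with hp1
    set p2 : ℤ := g.c.2 + f.c.1 + 1 with hp2
    refine ⟨fun x => ⟨x.im + (a * p1 - b * p2 : ℤ), -x.re + (b * p1 + a * p2 : ℤ)⟩, ?_, ?_⟩
    · intro x
      ext i
      rw [AA_apply, AA_apply, e1, e2, e3, TT_zero, TT_one, TT_zero, TT_one, hp1, hp2, co_negT,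
        co_addT]
      push_cast
      field_simp
      rw [ek]; ring
    · intro c
      refine ⟨(c.2 + (a * p1 - b * p2), -c.1 - 1 + (b * p1 + a * p2)), ?_, ?_, ?_⟩
      · refine Q139.Net.T3.ext' fun i => ?_
        simp only [ctr2, co_addT, co_smulT, co_negT, e1, e2, e3, XX, YY, kk, hp1, hp2]
        ring
      · rintro x ⟨h1, h2, h3, h4⟩
        refine ⟨?_, ?_, ?_, ?_⟩ <;> push_cast at * <;> linarith
      · rintro x ⟨h1, h2, h3, h4⟩
        refine ⟨?_, ?_, ?_, ?_⟩ <;> push_cast at * <;> linarith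
  · -- r = 2
    set p1 : ℤ := g.c.1 + f.c.1 + 1 with hp1
    set p2 : ℤ := g.c.2 + f.c.2 + 1 with hp2
    refine ⟨fun x => ⟨-x.re + (a * p1 - b * p2 : ℤ), -x.im + (b * p1 + a * p2 : ℤ)⟩, ?_, ?_⟩
    · intro x
      ext i
      rw [AA_apply, AA_apply, e1, e2, e3, TT_zero, TT_one, TT_zero, TT_one, hp1, hp2, co_negT,
        co_negT, co_addT, co_addT]
      push_cast
      field_simp
      rw [ek]; ring
    · intro c
      refine ⟨(-c.1 - 1 + (a * p1 - b * p2), -c.2 - 1 + (b * p1 + a * p2)), ?_, ?_, ?_⟩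
      · refine Q139.Net.T3.ext' fun i => ?_
        simp only [ctr2, co_addT, co_smulT, co_negT, e1, e2, e3, XX, YY, kk, hp1, hp2]
        ring
      · rintro x ⟨h1, h2, h3, h4⟩
        refine ⟨?_, ?_, ?_, ?_⟩ <;> push_cast at * <;> linarith
      · rintro x ⟨h1, h2, h3, h4⟩
        refine ⟨?_, ?_, ?_, ?_⟩ <;> push_cast at * <;> linarith
  · -- r = 3
    set p1 : ℤ := g.c.1 + f.c.2 + 1 with hp1
    set p2 : ℤ := g.c.2 - f.c.1 with hp2
    refine ⟨fun x => ⟨-x.im + (a * p1 - b * p2 : ℤ), x.re + (b * p1 + a * p2 : ℤ)⟩, ?_, ?_⟩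
    · intro x
      ext i
      rw [AA_apply, AA_apply, e1, e2, e3, TT_zero, TT_one, TT_zero, TT_one, hp1, hp2, co_negT,
        co_addT]
      push_cast
      field_simp
      rw [ek]; ring
    · intro c
      refine ⟨(-c.2 - 1 + (a * p1 - b * p2), c.1 + (b * p1 + a * p2)), ?_, ?_, ?_⟩
      · refine Q139.Net.T3.ext' fun i => ?_
        simp only [ctr2, co_addT, co_smulT, co_negT, e1, e2, e3, XX, YY, kk, hp1, hp2]
        ring
      · rintro x ⟨h1, h2, h3, h4⟩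
        refine ⟨?_, ?_, ?_, ?_⟩ <;> push_cast at * <;> linarith
      · rintro x ⟨h1, h2, h3, h4⟩
        refine ⟨?_, ?_, ?_, ?_⟩ <;> push_cast at * <;> linarith

theorem dotT_addT (s t u : T3) : dotT (addT s t) u = dotT s u + dotT t u := by
  simp only [dotT, addT]; ring

theorem dotT_smulT (n : ℤ) (s u : T3) : dotT (smulT n s) u = n * dotT s u := by
  simp only [dotT, smulT]; ring

theorem ctr2_inj {f : Fr} (hk : 0 < kk a b) (hf : OkF f) {c c' : Cell}
    (h : ctr2 a b c f = ctr2 a b c' f) : c = c' := by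
  obtain ⟨d1, d2, -, d4, -, -⟩ := hf.dots
  have d4' := dotT_comm f.u f.v
  rw [d4] at d4'
  have h1 := congrArg (fun t => dotT t f.u) h
  have h2 := congrArg (fun t => dotT t f.v) h
  simp only [ctr2, dotT_addT, dotT_smulT, d1, d2, d4, ← d4'] at h1 h2
  have e1 : XX a b c = XX a b c' := by linarith
  have e2 : YY a b c = YY a b c' := by linarith
  unfold XX at e1
  unfold YY at e2
  unfold kk at hk
  have e3 : (a * a + b * b) * (c.1 - c'.1) = 0 := by linear_combination a * e1 - b * e2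
  have e4 : (a * a + b * b) * (c.2 - c'.2) = 0 := by linear_combination b * e1 + a * e2
  have e5 := (mul_eq_zero.1 e3).resolve_left hk.ne'
  have e6 := (mul_eq_zero.1 e4).resolve_left hk.ne'
  exact Prod.ext (by linarith) (by linarith)

end Q139.Obl
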