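import Pool.Agent.Q139.Obl.Rel

/-!
The folding map of a certificate: continuity, image, injectivity.
-/

open Set Metric Filter Topology

namespace Q139.Obl

open Q139.Net (Cell E2 E3 T3 Fr aff addT co_addT units dotT okFrame okFrame_co okFrame_dot aff_dist
  aff_apply continuous_aff cons cons_spec aff_congr keyOpen surfKeys mem_surfKeys keyOpen_co negT)

variable {a b : ℤ} {L : List Pc}

/-- the folding map -/
noncomputable def phi (a b : ℤ) (L : List Pc) (x : ℂ) : E3 :=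
  open Classical in if h : ∃ P ∈ L, At a b P x then AA a b h.choose.f x else 0

theorem Good.phi_eq (h : Good a b L) {P : Pc} (hP : P ∈ L) {x : ℂ} (hx : At a b P x) :
    phi a b L x = AA a b P.f x := by
  have hex : ∃ P ∈ L, At a b P x := ⟨P, hP, hx⟩
  rw [phi, dif_pos hex]
  exact h.agree hex.choose_spec.1 hP hex.choose_spec.2 hx

theorem Good.region_iff (h : Good a b L) {x : ℂ} :
    x ∈ Q47.Cube.region (cellsOf L) ↔ ∃ P ∈ L, At a b P x := by
  simp only [Q47.Cube.region, mem_iUnion]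
  constructor
  · rintro ⟨c, hc, hx⟩
    obtain ⟨P, hP, rfl⟩ := mem_cellsOf.1 hc
    obtain ⟨Q, hQ, hQx, -⟩ := h.cov P hP x hx
    exact ⟨Q, hQ, hQx⟩
  · rintro ⟨P, hP, hx⟩
    exact ⟨P.d, mem_cellsOf.2 ⟨P, hP, rfl⟩, hx.1⟩

theorem Good.continuousOn (h : Good a b L) :
    ContinuousOn (phi a b L) (Q47.Cube.region (cellsOf L)) := by
  have hreg : Q47.Cube.region (cellsOf L) = ⋃ i : Fin L.length, {x | At a b (L.get i) x} := by
    ext x
    rw [h.region_iff, mem_iUnion]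
    constructor
    · rintro ⟨P, hP, hx⟩
      obtain ⟨i, hi⟩ := List.get_of_mem hP
      exact ⟨i, by rw [Set.mem_ofPred_eq, hi]; exact hx⟩
    · rintro ⟨i, hx⟩
      exact ⟨L.get i, List.get_mem L i, hx⟩
  rw [hreg]
  refine LocallyFinite.continuousOn_iUnion (locallyFinite_of_finite _)
    (fun i => isClosed_At _) fun i => ?_
  exact (continuous_AA (L.get i).f).continuousOn.congr fun x hx => h.phi_eq (List.get_mem L i) hx

theorem sqrt_pos' (hk : 0 < kk a b) : 0 < √(kk a b : ℝ) := Real.sqrt_pos.2 (by exact_mod_cast hk)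

theorem AA_mem_surface {f : Fr} (hk : 0 < kk a b) (hf : OkF f) {x : ℂ}
    (hx : TT a b x ∈ Q139.Net.sq f.c) : AA a b f x ∈ Q47.Cube.cubeSurface √(kk a b : ℝ) := by
  have h1 := Q139.Net.aff_mem_surface (m := 1) hf.ok hf.key hx
  have hl := sqrt_pos' hk
  obtain ⟨h2, i, h3⟩ := h1
  simp only [Nat.cast_one] at h2 h3
  have e : ∀ j, AA a b f x j = √(kk a b : ℝ) * aff f (TT a b x) j := fun j => rfl
  refine ⟨fun j => ?_, i, ?_⟩
  · rw [e]
    have := h2 j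
    exact ⟨mul_nonneg hl.le this.1, by nlinarith [this.2]⟩
  · rw [e]
    rcases h3 with h3 | h3
    · left; rw [h3, mul_zero]
    · right; rw [h3, mul_one]

theorem Good.maps (h : Good a b L) {x : ℂ} (hx : x ∈ Q47.Cube.region (cellsOf L)) :
    phi a b L x ∈ Q47.Cube.cubeSurface √(kk a b : ℝ) := by
  obtain ⟨P, hP, hPx⟩ := h.region_iff.1 hx
  rw [h.phi_eq hP hPx]
  exact AA_mem_surface h.hk (h.okF hP) hPx.2

/-! ### interior points -/

noncomputable def gam (x y : ℂ) (t : ℝ) : ℂ := x + (t : ℂ) * (y - x)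

theorem gam_re (x y : ℂ) (t : ℝ) : (gam x y t).re = x.re + t * (y.re - x.re) := by
  simp [gam]

theorem gam_im (x y : ℂ) (t : ℝ) : (gam x y t).im = x.im + t * (y.im - x.im) := by
  simp [gam]

theorem continuous_gam (x y : ℂ) : Continuous (gam x y) := by
  unfold gam; fun_prop

theorem gam_zero (x y : ℂ) : gam x y 0 = x := by simp [gam]

theorem TT_gam (x y : ℂ) (t : ℝ) (i : Fin 2) :
    TT a b (gam x y t) i = TT a b x i + t * (TT a b y i - TT a b x i) := by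
  fin_cases i
  · show TT a b (gam x y t) 0 = TT a b x 0 + t * (TT a b y 0 - TT a b x 0)
    rw [TT_zero, TT_zero, TT_zero, gam_re, gam_im]; ring
  · show TT a b (gam x y t) 1 = TT a b x 1 + t * (TT a b y 1 - TT a b x 1)
    rw [TT_one, TT_one, TT_one, gam_re, gam_im]; ring

theorem Good.push (h : Good a b L) {x : ℂ} (hx : x ∈ interior (Q47.Cube.region (cellsOf L)))
    (y : ℂ) : ∃ P ∈ L, At a b P x ∧ ∃ᶠ t in 𝓝[>] (0 : ℝ), At a b P (gam x y t) := by
  have htend : Tendsto (gam x y) (𝓝[>] (0 : ℝ)) (𝓝 x) := by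
    have := (continuous_gam x y).tendsto 0
    rw [gam_zero] at this
    exact this.mono_left nhdsWithin_le_nhds
  have hev : ∀ᶠ t in 𝓝[>] (0 : ℝ), ∃ P ∈ L, At a b P (gam x y t) := by
    filter_upwards [htend.eventually_mem (isOpen_interior.mem_nhds hx)] with t ht
    exact h.region_iff.1 (interior_subset ht)
  obtain ⟨P, hP, hfr⟩ : ∃ P ∈ L, ∃ᶠ t in 𝓝[>] (0 : ℝ), At a b P (gam x y t) := by
    by_contra hcon
    push Not at hcon
    have h1 : ∀ P ∈ {P | P ∈ L}, ∀ᶠ t in 𝓝[>] (0 : ℝ), ¬ At a b P (gam x y t) := by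
      intro P hP
      exact hcon P hP
    have h2 := (eventually_all_finite (List.finite_toSet L)).2 h1
    obtain ⟨t, ⟨P, hP, h3⟩, h4⟩ := (hev.and h2).exists
    exact h4 P hP h3
  refine ⟨P, hP, ?_, hfr⟩
  exact (isClosed_At P).mem_of_frequently_of_tendsto hfr htend

theorem frequently_small {p : ℝ → Prop} (h : ∃ᶠ t in 𝓝[>] (0 : ℝ), p t) :
    ∃ t, 0 < t ∧ t < 1 ∧ p t := by
  obtain ⟨t, h1, h2⟩ := (h.and_eventually (Ioo_mem_nhdsGT (zero_lt_one' ℝ))).exists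
  exact ⟨t, h2.1, h2.2, h1⟩

theorem cell_unique {c d : Cell} {x : ℂ} (hx : x ∈ ocell c) (hd : x ∈ Q47.Cube.cell d) : d = c := by
  obtain ⟨h1, h2, h3, h4⟩ := hx
  obtain ⟨g1, g2, g3, g4⟩ := hd
  have e1 : (d.1 : ℝ) < (c.1 + 1 : ℤ) := by push_cast; linarith
  have e2 : (c.1 : ℝ) < (d.1 + 1 : ℤ) := by push_cast; linarith
  have e3 : (d.2 : ℝ) < (c.2 + 1 : ℤ) := by push_cast; linarith
  have e4 : (c.2 : ℝ) < (d.2 + 1 : ℤ) := by push_cast; linarith
  rw [Int.cast_lt] at e1 e2 e3 e4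
  exact Prod.ext (by omega) (by omega)

theorem sq_unique {c d : Cell} {p : E2} (h1 : (c.1 : ℝ) < p 0) (h2 : p 0 < c.1 + 1)
    (h3 : (c.2 : ℝ) < p 1) (h4 : p 1 < c.2 + 1) (hd : p ∈ Q139.Net.sq d) : d = c := by
  obtain ⟨g1, g2, g3, g4⟩ := hd
  have e1 : (d.1 : ℝ) < (c.1 + 1 : ℤ) := by push_cast; linarith
  have e2 : (c.1 : ℝ) < (d.1 + 1 : ℤ) := by push_cast; linarith
  have e3 : (d.2 : ℝ) < (c.2 + 1 : ℤ) := by push_cast; linarith
  have e4 : (c.2 : ℝ) < (d.2 + 1 : ℤ) := by push_cast; linarith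
  rw [Int.cast_lt] at e1 e2 e3 e4
  exact Prod.ext (by omega) (by omega)

/-- every unit cell that contains an interior point belongs to the certificate -/
theorem Good.int_cell (h : Good a b L) {x : ℂ} (hx : x ∈ interior (Q47.Cube.region (cellsOf L)))
    {c : Cell} (hc : x ∈ Q47.Cube.cell c) : ∃ P ∈ L, P.d = c ∧ At a b P x := by
  obtain ⟨P, hP, hPx, hfr⟩ := h.push hx ⟨c.1 + 1 / 2, c.2 + 1 / 2⟩
  refine ⟨P, hP, ?_, hPx⟩
  obtain ⟨t, t0, t1, ht⟩ := frequently_small hfr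
  refine cell_unique (x := gam x ⟨c.1 + 1 / 2, c.2 + 1 / 2⟩ t) ?_ ht.1
  obtain ⟨h1, h2, h3, h4⟩ := hc
  refine ⟨?_, ?_, ?_, ?_⟩
  · rw [gam_re]; simp only; nlinarith
  · rw [gam_re]; simp only; nlinarith
  · rw [gam_im]; simp only; nlinarith
  · rw [gam_im]; simp only; nlinarith

/-- every tilted square that contains an interior point occurs -/
theorem Good.int_sq (h : Good a b L) {x : ℂ} (hx : x ∈ interior (Q47.Cube.region (cellsOf L)))
    {c : Cell} (hc : TT a b x ∈ Q139.Net.sq c) : ∃ P ∈ L, P.f.c = c ∧ At a b P x := by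
  set q : E2 := WithLp.toLp 2 ![(c.1 : ℝ) + 1 / 2, (c.2 : ℝ) + 1 / 2] with hq
  obtain ⟨P, hP, hPx, hfr⟩ := h.push hx (TI a b q)
  refine ⟨P, hP, ?_, hPx⟩
  obtain ⟨t, t0, t1, ht⟩ := frequently_small hfr
  obtain ⟨h1, h2, h3, h4⟩ := hc
  have e0 : q 0 = (c.1 : ℝ) + 1 / 2 := rfl
  have e1 : q 1 = (c.2 : ℝ) + 1 / 2 := rfl
  refine sq_unique (p := TT a b (gam x (TI a b q) t)) ?_ ?_ ?_ ?_ ht.2
  · rw [TT_gam, TT_TI h.hk, e0]; nlinarith
  · rw [TT_gam, TT_TI h.hk, e0]; nlinarith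
  · rw [TT_gam, TT_TI h.hk, e1]; nlinarith
  · rw [TT_gam, TT_TI h.hk, e1]; nlinarith

/-- frames at an interior point are compatible -/
theorem Good.cons_at (h : Good a b L) {x : ℂ} (hx : x ∈ interior (Q47.Cube.region (cellsOf L)))
    {P Q : Pc} (hP : P ∈ L) (hQ : Q ∈ L) (h1 : At a b P x) (h2 : At a b Q x) :
    cons2 P.f Q.f = true ∧ cons2 Q.f P.f = true := by
  have hin : ∀ c, x ∈ Q47.Cube.cell c → c ∈ cellsOf L := by
    intro c hc
    obtain ⟨R, hR, hRc, -⟩ := h.int_cell hx hc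
    exact mem_cellsOf.2 ⟨R, hR, hRc⟩
  rcases cells_cases h1.1 h2.1 with hc | ⟨hc, e1, e2⟩ | ⟨hc, e1, e2⟩ | ⟨hc, e1, e2⟩ | ⟨hc, e1, e2⟩
  · exact ⟨h.near P hP Q hQ hc, h.near Q hQ P hP (nearB_symm hc)⟩
  · have hh := h.blk1 P hP Q hQ hc (hin _ ?_) (hin _ ?_)
    · exact ⟨hh.1, hh.2.1⟩
    · rw [hc] at e1 e2; push_cast at e1 e2
      refine ⟨?_, ?_, ?_, ?_⟩ <;> push_cast <;> linarith
    · rw [hc] at e1 e2; push_cast at e1 e2
      refine ⟨?_, ?_, ?_, ?_⟩ <;> push_cast <;> linarith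
  · have hh := h.blk1 Q hQ P hP hc (hin _ ?_) (hin _ ?_)
    · exact ⟨hh.2.1, hh.1⟩
    · rw [hc] at e1 e2; push_cast at e1 e2
      refine ⟨?_, ?_, ?_, ?_⟩ <;> push_cast <;> linarith
    · rw [hc] at e1 e2; push_cast at e1 e2
      refine ⟨?_, ?_, ?_, ?_⟩ <;> push_cast <;> linarith
  · have hh := h.blk2 P hP Q hQ hc (hin _ ?_) (hin _ ?_)
    · exact ⟨hh.1, hh.2⟩
    · refine ⟨?_, ?_, ?_, ?_⟩ <;> push_cast <;> linarith
    · refine ⟨?_, ?_, ?_, ?_⟩ <;> push_cast <;> linarith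
  · have hh := h.blk2 Q hQ P hP hc (hin _ ?_) (hin _ ?_)
    · exact ⟨hh.2, hh.1⟩
    · refine ⟨?_, ?_, ?_, ?_⟩ <;> push_cast <;> linarith
    · refine ⟨?_, ?_, ?_, ?_⟩ <;> push_cast <;> linarith

/-- frames at an interior point with the same position agree -/
theorem Good.same_at (h : Good a b L) {x : ℂ} (hx : x ∈ interior (Q47.Cube.region (cellsOf L)))
    {P Q : Pc} (hP : P ∈ L) (hQ : Q ∈ L) (h1 : At a b P x) (h2 : At a b Q x) (hc : P.f.c = Q.f.c) :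
    P.f = Q.f :=
  (cons_spec (cons2_spec (h.cons_at hx hP hQ h1 h2).2).1).1 hc

/-- interior points are not mapped to vertices of the cube -/
theorem Good.not_vertex (h : Good a b L) {x : ℂ}
    (hx : x ∈ interior (Q47.Cube.region (cellsOf L))) (j : Cell) (h0 : TT a b x 0 = j.1)
    (h1 : TT a b x 1 = j.2) : False := by
  have hin : ∀ c, x ∈ Q47.Cube.cell c → ∃ P ∈ L, P.d = c := by
    intro c hc
    obtain ⟨R, hR, hRc, -⟩ := h.int_cell hx hc
    exact ⟨R, hR, hRc⟩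
  have e1 : x.re = ((a * j.1 - b * j.2 : ℤ) : ℝ) := by
    have := congrArg Complex.re (TI_TT h.hk x)
    rw [← this]
    show (a : ℝ) * TT a b x 0 - b * TT a b x 1 = _
    rw [h0, h1]; push_cast; ring
  have e2 : x.im = ((b * j.1 + a * j.2 : ℤ) : ℝ) := by
    have := congrArg Complex.im (TI_TT h.hk x)
    rw [← this]
    show (b : ℝ) * TT a b x 0 + a * TT a b x 1 = _
    rw [h0, h1]; push_cast; ring
  set m : ℤ := a * j.1 - b * j.2 with hm
  set n : ℤ := b * j.1 + a * j.2 with hn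
  have c1 : x ∈ Q47.Cube.cell (m - 1, n - 1) := by
    refine ⟨?_, ?_, ?_, ?_⟩ <;> push_cast <;> linarith
  have c2 : x ∈ Q47.Cube.cell (m, n) := by
    refine ⟨?_, ?_, ?_, ?_⟩ <;> push_cast <;> linarith
  have c3 : x ∈ Q47.Cube.cell (m - 1 + 1, n - 1) := by
    refine ⟨?_, ?_, ?_, ?_⟩ <;> push_cast <;> linarith
  have c4 : x ∈ Q47.Cube.cell (m - 1, n - 1 + 1) := by
    refine ⟨?_, ?_, ?_, ?_⟩ <;> push_cast <;> linarith
  obtain ⟨P, hP, hPd⟩ := hin _ c1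
  obtain ⟨Q, hQ, hQd⟩ := hin _ c2
  have d3 := mem_cellsOf.2 (hin _ c3)
  have d4 := mem_cellsOf.2 (hin _ c4)
  have hh := h.blk1 P hP Q hQ (by rw [hPd, hQd]; simp) (by rw [hPd]; exact d3)
    (by rw [hPd]; exact d4)
  apply hh.2.2
  rw [hQd]
  refine ⟨⟨j.1, ?_⟩, ⟨j.2, ?_⟩⟩
  · simp only [XX, kk, hm, hn]; ring
  · simp only [YY, kk, hm, hn]; ring

theorem local_at (a b : ℤ) (L : List Pc) (x : ℂ) :
    ∃ δ > 0, ∀ w ∈ ball x δ, ∀ P ∈ L, At a b P w → At a b P x := by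
  have h1 : ∀ P ∈ {P | P ∈ L}, ∀ᶠ w in 𝓝 x, At a b P w → At a b P x := by
    intro P _
    by_cases hx : At a b P x
    · exact Eventually.of_forall fun w _ => hx
    · filter_upwards [(isClosed_At P).isOpen_compl.mem_nhds hx] with w hw hw'
      exact absurd hw' hw
  have h2 := (eventually_all_finite (List.finite_toSet L)).2 h1
  obtain ⟨δ, hδ, h3⟩ := Metric.eventually_nhds_iff_ball.1 h2
  exact ⟨δ, hδ, fun w hw P hP => h3 w hw P hP⟩

theorem exists_generic {V : Set ℂ} (hV : IsOpen V) (hne : V.Nonempty) :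
    ∃ w ∈ V, Q47.Cube.NonInt w := by
  obtain ⟨v, hv⟩ := hne
  obtain ⟨δ, hδ, hb⟩ := Metric.isOpen_iff.1 hV v hv
  obtain ⟨r, hr, hr1, hr2⟩ := exists_irrational_btwn (show v.re < v.re + δ / 2 by linarith)
  obtain ⟨s, hs, hs1, hs2⟩ := exists_irrational_btwn (show v.im < v.im + δ / 2 by linarith)
  refine ⟨⟨r, s⟩, hb ?_, fun n hn => hr ⟨n, by push_cast; exact hn.symm⟩,
    fun n hn => hs ⟨n, by push_cast; exact hn.symm⟩⟩
  rw [mem_ball, Complex.dist_eq]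
  have h1 := Complex.norm_le_abs_re_add_abs_im ((⟨r, s⟩ : ℂ) - v)
  simp only [Complex.sub_re, Complex.sub_im] at h1
  rw [abs_of_pos (by linarith), abs_of_pos (by linarith)] at h1
  linarith

theorem ocell_floor {w : ℂ} (hw : Q47.Cube.NonInt w) : w ∈ ocell (⌊w.re⌋, ⌊w.im⌋) :=
  ⟨lt_of_le_of_ne (Int.floor_le _) fun h => hw.1 _ h.symm, Int.lt_floor_add_one _,
    lt_of_le_of_ne (Int.floor_le _) fun h => hw.2 _ h.symm, Int.lt_floor_add_one _⟩

theorem nonInt_of_ocell {w : ℂ} {c : Cell} (hw : w ∈ ocell c) : Q47.Cube.NonInt w := by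
  obtain ⟨h1, h2, h3, h4⟩ := hw
  refine ⟨fun n hn => ?_, fun n hn => ?_⟩
  · rw [hn] at h1 h2
    have e2 : (n : ℝ) < (c.1 + 1 : ℤ) := by push_cast; exact h2
    rw [Int.cast_lt] at h1 e2; omega
  · rw [hn] at h3 h4
    have e2 : (n : ℝ) < (c.2 + 1 : ℤ) := by push_cast; exact h4
    rw [Int.cast_lt] at h3 e2; omega

/-! ### levels on the surface -/

theorem lev_bound {l : ℝ} (hl : 0 < l) {w : E3} (hw : w ∈ Q47.Cube.cubeSurface l) {g : T3}
    (hg : g ∈ units) : -1 ≤ lev l g w ∧ lev l g w ≤ 1 := by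
  obtain ⟨h1, -⟩ := hw
  have q : ∀ i, 0 ≤ w i / l ∧ w i / l ≤ 1 := fun i =>
    ⟨div_nonneg (h1 i).1 hl.le, (div_le_one hl).2 (h1 i).2⟩
  have q0 := q 0
  have q1 := q 1
  have q2 := q 2
  have e : ∀ g : T3, lev l g w = 2 * ((g.co 0 : ℝ) * (w 0 / l) + g.co 1 * (w 1 / l) +
      g.co 2 * (w 2 / l)) - ((g.co 0 : ℝ) + g.co 1 + g.co 2) := by
    intro g; rw [lev, dr]; field_simp
  rw [e]
  simp only [units, List.mem_cons, List.not_mem_nil, or_false] at hg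
  rcases hg with rfl | rfl | rfl | rfl | rfl | rfl <;>
    simp only [T3.co, Matrix.cons_val_zero, Matrix.cons_val_one, Matrix.cons_val, Int.cast_one,
      Int.cast_zero, Int.cast_neg] <;> constructor <;> linarith

/-- a point of the extended face that lies on the surface lies in the face -/
theorem OkF.in_sq {f : Fr} (hf : OkF f) (hk : 0 < kk a b) {x : ℂ}
    (h : AA a b f x ∈ Q47.Cube.cubeSurface √(kk a b : ℝ)) : TT a b x ∈ Q139.Net.sq f.c := by
  have hl := sqrt_pos' hk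
  obtain ⟨-, -, h3, -, h5, -⟩ := hf.levs hk x
  have b3 := lev_bound hl h hf.u
  have b5 := lev_bound hl h hf.v
  rw [h3] at b3
  rw [h5] at b5
  refine ⟨?_, ?_, ?_, ?_⟩ <;> linarith [b3.1, b3.2, b5.1, b5.2]

end Q139.Obl
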